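import Pool.Agent.KAA.Defs

namespace KAA
open Finset Matrix

/-- column bound for determinants -/
theorem norm_det_le {ι : Type*} [Fintype ι] [DecidableEq ι] (Z : Matrix ι ι ℂ) (b : ι → ℝ)
    (hb : ∀ k i, ‖Z k i‖ ≤ b i) : ‖Z.det‖ ≤ ((Fintype.card ι).factorial : ℝ) * ∏ i, b i := by
  rw [Matrix.det_apply]
  refine (norm_sum_le _ _).trans ?_
  calc ∑ σ : Equiv.Perm ι, ‖Equiv.Perm.sign σ • ∏ i, Z (σ i) i‖
      ≤ ∑ σ : Equiv.Perm ι, ∏ i, b i := by
        refine Finset.sum_le_sum fun σ _ => ?_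
        have h1 : ‖Equiv.Perm.sign σ • ∏ i, Z (σ i) i‖ = ‖∏ i, Z (σ i) i‖ := by
          rcases Int.units_eq_one_or (Equiv.Perm.sign σ) with h | h <;> simp [h]
        rw [h1, norm_prod]
        exact Finset.prod_le_prod (fun i _ => norm_nonneg _) (fun i _ => hb _ _)
    _ = _ := by simp [Fintype.card_perm]

/-- Taylor polynomials with a geometric error bound -/
theorem taylor_tail (f : ℂ → ℂ) (t0 : ℂ) (R0 M : ℝ) (hR : 0 < R0)
    (hf : DifferentiableOn ℂ f (Metric.closedBall t0 R0))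
    (hM : ∀ z ∈ Metric.closedBall t0 R0, ‖f z‖ ≤ M) :
    ∃ τ : ℕ → ℂ, τ 0 = f t0 ∧ ∀ z : ℂ, ‖z - t0‖ ≤ R0 / 2 → ∀ n : ℕ,
      ‖f z - ∑ m ∈ range n, τ m * (z - t0) ^ m‖ ≤ 2 * M * (‖z - t0‖ / R0) ^ n := by
  have hM0 : 0 ≤ M := (norm_nonneg _).trans (hM t0 (Metric.mem_closedBall_self hR.le))
  refine ⟨fun m => ((m.factorial : ℂ))⁻¹ * iteratedDeriv m f t0, by simp, ?_⟩
  intro z hz n
  have hzb : z ∈ Metric.ball t0 R0 := by
    rw [mem_ball_iff_norm]; linarith
  have hsum := Complex.hasSum_taylorSeries_on_ball (hf.mono Metric.ball_subset_closedBall) hzb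
  have hcoef : ∀ m : ℕ, ‖((m.factorial : ℂ))⁻¹ * iteratedDeriv m f t0 * (z - t0) ^ m‖ ≤
      M * (‖z - t0‖ / R0) ^ m := by
    intro m
    have h := Complex.norm_iteratedDeriv_le_of_forall_mem_sphere_norm_le (F := ℂ) (c := t0)
      (R := R0) (C := M) (f := f) m hR (hf.diffContOnCl_ball (Set.Subset.refl _))
      (fun w hw => hM w (Metric.sphere_subset_closedBall hw))
    rw [norm_mul, norm_mul, norm_inv, norm_pow]
    have hfac : ‖(m.factorial : ℂ)‖ = (m.factorial : ℝ) := by simp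
    rw [hfac]
    have hpos : (0:ℝ) < m.factorial := by exact_mod_cast m.factorial_pos
    calc (m.factorial : ℝ)⁻¹ * ‖iteratedDeriv m f t0‖ * ‖z - t0‖ ^ m
        ≤ (m.factorial : ℝ)⁻¹ * (m.factorial * M / R0 ^ m) * ‖z - t0‖ ^ m := by gcongr
      _ = M * (‖z - t0‖ / R0) ^ m := by
        rw [div_pow]; field_simp
  have hsum' : HasSum (fun m : ℕ => ((m.factorial : ℂ))⁻¹ * iteratedDeriv m f t0 * (z - t0) ^ m)
      (f z) := by
    have he : (fun m : ℕ => ((m.factorial : ℂ))⁻¹ * iteratedDeriv m f t0 * (z - t0) ^ m) =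
        fun m : ℕ => (m.factorial : ℂ)⁻¹ • (z - t0) ^ m • iteratedDeriv m f t0 := by
      funext m; simp only [smul_eq_mul]; ring
    rw [he]; exact hsum
  set q := ‖z - t0‖ / R0 with hq
  have hq0 : 0 ≤ q := by positivity
  have hq1 : q ≤ 1 / 2 := by
    rw [hq, div_le_div_iff₀ hR (by norm_num)]; linarith
  have htail : f z - ∑ m ∈ range n, ((m.factorial : ℂ))⁻¹ * iteratedDeriv m f t0 * (z - t0) ^ m
      = ∑' m : ℕ, ((↑(m + n).factorial : ℂ))⁻¹ * iteratedDeriv (m + n) f t0 * (z - t0) ^ (m + n) := by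
    rw [← hsum'.tsum_eq, ← hsum'.summable.sum_add_tsum_nat_add n]; ring
  rw [htail]
  have hgeo : HasSum (fun m : ℕ => M * q ^ (m + n)) (M * q ^ n * (1 - q)⁻¹) := by
    have := (hasSum_geometric_of_lt_one hq0 (by linarith)).mul_left (M * q ^ n)
    have he : (fun m : ℕ => M * q ^ (m + n)) = fun i : ℕ => M * q ^ n * q ^ i := by
      funext m; rw [pow_add]; ring
    rw [he]; exact this
  refine (tsum_of_norm_bounded hgeo (fun m => hcoef (m + n))).trans ?_
  have h2 : (1 - q)⁻¹ ≤ 2 := by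
    rw [inv_le_comm₀ (by linarith) (by norm_num)]; linarith
  calc M * q ^ n * (1 - q)⁻¹ ≤ M * q ^ n * 2 := by gcongr
    _ = 2 * M * q ^ n := by ring


/-- Pascal matrix: change of basis from `(t - t0)^a` to `t^b` -/
def pascal (A : ℕ) (t0 : ℂ) : Matrix (Fin (A + 1)) (Fin (A + 1)) ℂ :=
  fun b a => if b ≤ a then ((a : ℕ).choose b : ℂ) * (-t0) ^ ((a : ℕ) - b) else 0

theorem det_pascal (A : ℕ) (t0 : ℂ) : (pascal A t0).det = 1 := by
  rw [Matrix.det_of_isUpperTriangular]
  · simp [pascal]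
  · intro i j hij
    simp only [id] at hij
    simp [pascal, not_le.mpr hij]

theorem sum_pascal (A : ℕ) (t0 t : ℂ) (a : Fin (A + 1)) :
    ∑ b : Fin (A + 1), t ^ (b : ℕ) * pascal A t0 b a = (t - t0) ^ (a : ℕ) := by
  rw [sub_eq_add_neg, add_pow]
  have h1 : ∑ b : Fin (A + 1), t ^ (b : ℕ) * pascal A t0 b a =
      ∑ b ∈ range (A + 1), if b ≤ (a : ℕ) then
        t ^ b * (((a : ℕ).choose b : ℂ) * (-t0) ^ ((a : ℕ) - b)) else 0 := by
    rw [Finset.sum_range]
    refine Finset.sum_congr rfl fun b _ => ?_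
    by_cases h : b ≤ a
    · have h' : (b : ℕ) ≤ (a : ℕ) := h
      simp [pascal, h, h']
    · have h' : ¬ (b : ℕ) ≤ (a : ℕ) := h
      simp [pascal, h, h']
  rw [h1, ← Finset.sum_filter]
  refine Finset.sum_congr ?_ ?_
  · ext b
    have := a.2
    simp only [mem_filter, mem_range]
    omega
  · intro b _
    ring

/-- The column operation matrix. -/
def colop (s A : ℕ) (τ : Fin s → ℕ → ℂ) (i0 : Fin s) :
    Matrix (Fin s × Fin (A + 1)) (Fin s × Fin (A + 1)) ℂ :=
  fun x y => if y.1 = i0 then (if y.2 ≤ x.2 then τ x.1 ((x.2 : ℕ) - y.2) else 0)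
    else if x = y then 1 else 0

theorem det_colop (s A : ℕ) (τ : Fin s → ℕ → ℂ) (i0 : Fin s) :
    (colop s A τ i0).det = τ i0 0 ^ (A + 1) := by
  rw [Matrix.twoBlockTriangular_det' _ (fun x => x.1 = i0)]
  · have h1 : ((colop s A τ i0).toSquareBlockProp fun i => ¬ i.1 = i0) = 1 := by
      ext x y
      simp only [Matrix.toSquareBlockProp_def, colop, Matrix.one_apply]
      simp [Subtype.ext_iff]
      exact fun h => absurd h y.2
    rw [h1, Matrix.det_one, mul_one]
    let e : Fin (A + 1) ≃ {x : Fin s × Fin (A + 1) // x.1 = i0} :=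
      { toFun := fun a => ⟨(i0, a), rfl⟩
        invFun := fun x => x.1.2
        left_inv := fun a => rfl
        right_inv := fun x => by
          apply Subtype.ext
          exact Prod.ext x.2.symm rfl }
    rw [← Matrix.det_submatrix_equiv_self e, Matrix.det_of_isLowerTriangular]
    · simp [Matrix.toSquareBlockProp_def, colop, e]
    · intro a b hab
      have hab' : ¬ (b ≤ a) := by
        simpa using hab
      simp [Matrix.toSquareBlockProp_def, colop, e, hab']
  · intro x hx y hy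
    have hxy : x ≠ y := by
      rintro rfl; exact hy hx
    simp [colop, hy, hxy]


theorem tCL : T_CL := by
  intro s A φ t0 R0 M hR0 hM hφ hφM t c H hH hc hrel r hr hrR htr i0
  choose τ hτ0 hτ using fun i => taylor_tail (φ i) t0 R0 M hR0 (hφ i) (hφM i)
  -- the integer matrix, in ℂ
  set Mi : Matrix (Fin s × Fin (A + 1)) (Fin s × Fin (A + 1)) ℂ :=
    fun k ia => (c k ia.1 : ℂ) * (t k : ℂ) ^ (ia.2 : ℕ) with hMi
  have hMidet : |Matrix.det (fun (k ia : Fin s × Fin (A + 1)) =>
      (c k ia.1 : ℝ) * (t k) ^ (ia.2 : ℕ))| = ‖Mi.det‖ := by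
    have h1 : Mi = (Matrix.of (fun (k ia : Fin s × Fin (A + 1)) =>
        (c k ia.1 : ℝ) * (t k) ^ (ia.2 : ℕ))).map (Complex.ofRealHom) := by
      ext k ia
      simp [hMi]
    rw [h1, ← RingHom.mapMatrix_apply, ← RingHom.map_det]
    simp only [Complex.ofRealHom_eq_coe, Complex.norm_real, Real.norm_eq_abs]
    rfl
  rw [hMidet]
  -- change of basis
  set M0 : Matrix (Fin s × Fin (A + 1)) (Fin s × Fin (A + 1)) ℂ :=
    fun k ia => (c k ia.1 : ℂ) * ((t k : ℂ) - t0) ^ (ia.2 : ℕ) with hM0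
  have hM0eq : M0 = Mi * (Matrix.kroneckerMap (· * ·) (1 : Matrix (Fin s) (Fin s) ℂ)
      (pascal A t0)) := by
    ext k ia
    rw [Matrix.mul_apply, Fintype.sum_prod_type]
    simp only [hMi, hM0, Matrix.kroneckerMap_apply, Matrix.one_apply]
    rw [Finset.sum_eq_single ia.1]
    · rw [← sum_pascal A t0 (t k : ℂ) ia.2, Finset.mul_sum]
      refine Finset.sum_congr rfl fun b _ => ?_
      simp; ring
    · intro i _ hi
      simp [hi]
    · simp
  have hM0det : M0.det = Mi.det := by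
    rw [hM0eq, Matrix.det_mul, Matrix.det_kronecker, det_pascal]; simp
  set Z := M0 * colop s A τ i0 with hZ
  have hZdet : Z.det = Mi.det * φ i0 t0 ^ (A + 1) := by
    rw [hZ, Matrix.det_mul, det_colop, hM0det, hτ0]
  -- column bounds
  let b : Fin s × Fin (A + 1) → ℝ := fun ia => H * r ^ (ia.2 : ℕ) *
    (if ia.1 = i0 then 2 * s * M * (r / R0) ^ (A + 1 - (ia.2 : ℕ)) else 1)
  have hH0 : 0 ≤ H := by linarith
  have hcn : ∀ k i, ‖(c k i : ℂ)‖ ≤ H := by
    intro k i
    have := hc k i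
    rw [Complex.norm_intCast]; exact this
  have hb : ∀ k ia, ‖Z k ia‖ ≤ b ia := by
    intro k ia
    obtain ⟨i, a⟩ := ia
    by_cases hi : i = i0
    · subst hi
      have hZk : Z k (i, a) = ((t k : ℂ) - t0) ^ (a : ℕ) *
          ∑ i' : Fin s, (c k i' : ℂ) *
            ∑ m ∈ range (A + 1 - (a : ℕ)), τ i' m * ((t k : ℂ) - t0) ^ m := by
        rw [hZ, Matrix.mul_apply, Fintype.sum_prod_type, Finset.mul_sum]
        refine Finset.sum_congr rfl fun i' _ => ?_
        have h1 : ∀ x : Fin (A + 1), M0 k (i', x) * colop s A τ i (i', x) (i, a) =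
            if (a : ℕ) ≤ (x : ℕ) then (c k i' : ℂ) * ((t k : ℂ) - t0) ^ (x : ℕ) *
              τ i' ((x : ℕ) - (a : ℕ)) else 0 := by
          intro x
          simp only [hM0, colop, if_true, mul_ite, mul_zero]
          rfl
        rw [Finset.sum_congr rfl (fun x _ => h1 x)]
        rw [Fin.sum_univ_eq_sum_range (fun x => if (a : ℕ) ≤ x then
          (c k i' : ℂ) * ((t k : ℂ) - t0) ^ x * τ i' (x - (a : ℕ)) else 0) (A + 1)]
        rw [← Finset.sum_filter, Finset.mul_sum, Finset.mul_sum]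
        symm
        refine Finset.sum_bij (fun m _ => m + (a : ℕ)) ?_ ?_ ?_ ?_
        · intro m hm
          simp only [mem_range, mem_filter] at hm ⊢
          have := a.2
          omega
        · intro m _ m' _ h
          simpa using h
        · intro x hx
          simp only [mem_range, mem_filter] at hx
          refine ⟨x - a, ?_, ?_⟩
          · simp only [mem_range]; omega
          · show x - (a : ℕ) + (a : ℕ) = x
            omega
        · intro m _
          simp only [Nat.add_sub_cancel, pow_add]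
          ring
      have hZk2 : Z k (i, a) = -(((t k : ℂ) - t0) ^ (a : ℕ) *
          ∑ i' : Fin s, (c k i' : ℂ) *
            (φ i' (t k : ℂ) - ∑ m ∈ range (A + 1 - (a : ℕ)), τ i' m * ((t k : ℂ) - t0) ^ m)) := by
        have h2 : ∑ i' : Fin s, (c k i' : ℂ) *
            (φ i' (t k : ℂ) - ∑ m ∈ range (A + 1 - (a : ℕ)), τ i' m * ((t k : ℂ) - t0) ^ m) =
            (∑ i' : Fin s, φ i' (t k : ℂ) * (c k i' : ℂ)) - ∑ i' : Fin s, (c k i' : ℂ) *
              ∑ m ∈ range (A + 1 - (a : ℕ)), τ i' m * ((t k : ℂ) - t0) ^ m := by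
          rw [← Finset.sum_sub_distrib]
          refine Finset.sum_congr rfl fun i' _ => ?_
          ring
        rw [h2, hrel k, hZk]; ring
      rw [hZk2, norm_neg, norm_mul, norm_pow]
      have h3 : ‖∑ i' : Fin s, (c k i' : ℂ) *
            (φ i' (t k : ℂ) - ∑ m ∈ range (A + 1 - (a : ℕ)), τ i' m * ((t k : ℂ) - t0) ^ m)‖ ≤
          ∑ i' : Fin s, H * (2 * M * (r / R0) ^ (A + 1 - (a : ℕ))) := by
        refine (norm_sum_le _ _).trans (Finset.sum_le_sum fun i' _ => ?_)
        rw [norm_mul]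
        have h4 := hτ i' (t k : ℂ) ((htr k).trans hrR) (A + 1 - (a : ℕ))
        have h5 : 2 * M * (‖(t k : ℂ) - t0‖ / R0) ^ (A + 1 - (a : ℕ)) ≤
            2 * M * (r / R0) ^ (A + 1 - (a : ℕ)) := by
          gcongr
          exact htr k
        exact mul_le_mul (hcn k i') (h4.trans h5) (norm_nonneg _) hH0
      have h6 : ∑ i' : Fin s, H * (2 * M * (r / R0) ^ (A + 1 - (a : ℕ))) =
          H * (2 * s * M * (r / R0) ^ (A + 1 - (a : ℕ))) := by
        rw [Finset.sum_const, Finset.card_univ, Fintype.card_fin, nsmul_eq_mul]; ring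
      rw [h6] at h3
      simp only [b, if_true]
      calc ‖(t k : ℂ) - t0‖ ^ (a : ℕ) * _ ≤ r ^ (a : ℕ) *
            (H * (2 * s * M * (r / R0) ^ (A + 1 - (a : ℕ)))) :=
            mul_le_mul (pow_le_pow_left₀ (norm_nonneg _) (htr k) _) h3 (norm_nonneg _)
              (pow_nonneg hr _)
        _ = _ := by ring
    · have hZk : Z k (i, a) = (c k i : ℂ) * ((t k : ℂ) - t0) ^ (a : ℕ) := by
        rw [hZ, Matrix.mul_apply, Finset.sum_eq_single (i, a)]
        · simp [colop, hi, hM0]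
        · intro x _ hx
          simp [colop, hi, hx]
        · simp
      rw [hZk, norm_mul, norm_pow]
      simp only [b, if_neg hi, mul_one]
      exact mul_le_mul (hcn k i) (pow_le_pow_left₀ (norm_nonneg _) (htr k) _)
        (pow_nonneg (norm_nonneg _) _) hH0
  have hfin := norm_det_le Z b hb
  rw [hZdet, norm_mul, norm_pow, mul_comm] at hfin
  refine hfin.trans (le_of_eq ?_)
  have hcard : Fintype.card (Fin s × Fin (A + 1)) = s * (A + 1) := by simp
  rw [hcard]
  have hprod : ∏ ia, b ia = (2 * s * M) ^ (A + 1) * H ^ (s * (A + 1)) *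
        r ^ (s * ∑ a ∈ range (A + 1), a) * (r / R0) ^ (∑ a ∈ range (A + 1), (a + 1)) := by
    simp only [b]
    rw [Finset.prod_mul_distrib, Finset.prod_mul_distrib, Finset.prod_const,
      Finset.card_univ, hcard]
    have e1 : ∏ x : Fin s × Fin (A + 1), r ^ (x.2 : ℕ) = r ^ (s * ∑ a ∈ range (A + 1), a) := by
      rw [Fintype.prod_prod_type]
      simp only [Finset.prod_const, Finset.card_univ, Fintype.card_fin]
      rw [Fin.prod_univ_eq_prod_range (fun a => r ^ a) (A + 1), Finset.prod_pow_eq_pow_sum,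
        ← pow_mul, mul_comm]
    have e2 : ∏ x : Fin s × Fin (A + 1), (if x.1 = i0 then
        2 * (s : ℝ) * M * (r / R0) ^ (A + 1 - (x.2 : ℕ)) else 1) =
        (2 * s * M) ^ (A + 1) * (r / R0) ^ (∑ a ∈ range (A + 1), (a + 1)) := by
      rw [Fintype.prod_prod_type, Finset.prod_eq_single i0]
      · simp only [if_true]
        rw [Finset.prod_mul_distrib, Finset.prod_const, Finset.card_univ, Fintype.card_fin]
        congr 1
        rw [Fin.prod_univ_eq_prod_range (fun a => (r / R0) ^ (A + 1 - a)) (A + 1),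
          Finset.prod_pow_eq_pow_sum]
        congr 1
        rw [← Finset.sum_range_reflect]
        refine Finset.sum_congr rfl fun a ha => ?_
        simp only [mem_range] at ha
        omega
      · intro i _ hi
        simp [hi]
      · simp
    rw [e1, e2]; ring
  rw [hprod]; ring

end KAA
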