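import Pool.Agent.KAA.Step

namespace KAA
open Finset Polynomial

/-- Integers `t` with a small integer vector `c` such that `c · Ψ(t, y)` is not the zero
polynomial in `y` but vanishes at `y = log (t / x)`. -/
def excCore (s D : ℕ) (Ψ : Fin s → Fin (D + 1) → Polynomial ℂ) (x H : ℝ) : Set ℕ :=
  {t | ∃ c : Fin s → ℤ, (∀ i, |(c i : ℝ)| ≤ H) ∧
    (∃ j, ∑ i, (c i : ℂ) * (Ψ i j).eval (t : ℂ) ≠ 0) ∧
    ∑ j, (∑ i, (c i : ℂ) * (Ψ i j).eval (t : ℂ)) *
      (Real.log ((t : ℝ) / x) : ℂ) ^ (j : ℕ) = 0}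

theorem finite_window (x l : ℝ) : {t : ℕ | |(t : ℝ) - x| ≤ l}.Finite := by
  apply (Set.finite_Iic (Nat.floor (x + l))).subset
  intro t ht
  simp only [Set.mem_ofPred_eq, abs_le] at ht
  exact Nat.le_floor (by linarith [ht.2])

theorem ncard_roots_le (g : Polynomial ℤ) (hg : g ≠ 0) :
    {t : ℕ | g.eval (t : ℤ) = 0}.Finite ∧ {t : ℕ | g.eval (t : ℤ) = 0}.ncard ≤ g.natDegree := by
  classical
  have hinj : Function.Injective (fun t : ℕ => (t : ℤ)) := Nat.cast_injective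
  have hsub : (fun t : ℕ => (t : ℤ)) '' {t : ℕ | g.eval (t : ℤ) = 0} ⊆ (g.roots.toFinset : Set ℤ) := by
    rintro _ ⟨t, ht, rfl⟩
    simp only [Finset.mem_coe, Multiset.mem_toFinset]
    exact (Polynomial.mem_roots hg).mpr ht
  have hfin : ((fun t : ℕ => (t : ℤ)) '' {t : ℕ | g.eval (t : ℤ) = 0}).Finite :=
    (Finset.finite_toSet _).subset hsub
  refine ⟨hfin.of_finite_image hinj.injOn, ?_⟩
  rw [← Set.ncard_image_of_injective _ hinj]
  calc _ ≤ (g.roots.toFinset : Set ℤ).ncard := Set.ncard_le_ncard hsub (Finset.finite_toSet _)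
    _ = g.roots.toFinset.card := Set.ncard_coe_finset _
    _ ≤ Multiset.card g.roots := Multiset.toFinset_card_le _
    _ ≤ g.natDegree := Polynomial.card_roots' g

theorem core (D m : ℕ) : ∀ s : ℕ, s ≤ m → ∃ C : ℝ, 0 < C ∧ ∃ e : ℕ,
    ∀ (N : ℕ) (H T x : ℝ), 1 ≤ H → 16 ≤ T → T ^ (1 / 2 : ℝ) / 2 ≤ x → x ≤ 2 * T →
    ∀ Ψ : Fin s → Fin (D + 1) → Polynomial ℂ, (∀ i j, (Ψ i j).natDegree ≤ N) →
      ((excCore s D Ψ x H ∩
        {t : ℕ | |(t : ℝ) - x| ≤ T ^ (1 / (8 * ((m : ℝ) + 1))) / 8}).ncard : ℝ) ≤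
        C * (1 + N + Real.log H) ^ e := by
  obtain ⟨C', hC', hstep⟩ := step D m
  intro s
  induction s with
  | zero =>
    intro _
    refine ⟨1, one_pos, 0, ?_⟩
    intro N H T x hH hT hx1 hx2 Ψ hdeg
    have : excCore 0 D Ψ x H = ∅ := by
      ext t
      simp [excCore]
    rw [this]; simp
  | succ s ih =>
    intro hsm
    obtain ⟨C, hC, e, hih⟩ := ih (by omega)
    refine ⟨(C' + 1) + C * (C' + 2) ^ e, by positivity, 2 * e + 2, ?_⟩
    intro N H T x hH hT hx1 hx2 Ψ hdeg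
    set w : ℝ := T ^ (1 / (8 * ((m : ℝ) + 1))) / 8 with hw
    set B : ℝ := 1 + N + Real.log H with hB
    have hh : 0 ≤ Real.log H := Real.log_nonneg hH
    have hB1 : 1 ≤ B := by
      have : (0 : ℝ) ≤ N := Nat.cast_nonneg _
      rw [hB]; linarith
    by_cases hΨ : Ψ = 0
    · have : excCore (s + 1) D Ψ x H = ∅ := by
        ext t
        simp [excCore, hΨ]
      rw [this]; simp; positivity
    set E : Set ℕ := excCore (s + 1) D Ψ x H ∩ {t : ℕ | |(t : ℝ) - x| ≤ w} with hE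
    have hEfin : E.Finite := (finite_window x w).subset Set.inter_subset_right
    set A : ℕ := Nat.ceil (C' * B ^ 2) with hA
    have hAle : C' * B ^ 2 ≤ A := Nat.le_ceil _
    have hAlt : (A : ℝ) ≤ (C' + 1) * B ^ 2 := by
      have h1 := (Nat.ceil_lt_add_one (by positivity : 0 ≤ C' * B ^ 2)).le
      have h2 : (1 : ℝ) ≤ B ^ 2 := one_le_pow₀ hB1
      rw [← hA] at h1
      linarith
    choose! c hcH hcne hcrel using fun (t : ℕ) (ht : t ∈ excCore (s + 1) D Ψ x H) => ht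
    obtain ⟨g, hg0, hgdeg, hgrel⟩ := hstep (s + 1) N A H T x (by omega) hsm hH hT hx1 hx2 hAle Ψ
      hdeg hΨ E c (fun t ht => ht.2) (fun t ht => hcH t ht.1) (fun t ht => hcrel t ht.1)
    obtain ⟨i, hi⟩ : ∃ i, g i ≠ 0 := by
      by_contra hcon
      push Not at hcon
      exact hg0 (funext hcon)
    let gc : Fin (s + 1) → Polynomial ℂ := fun l => (g l).map (Int.castRingHom ℂ)
    let Ψ' : Fin s → Fin (D + 1) → Polynomial ℂ := fun l j =>
      gc i * Ψ (i.succAbove l) j - gc (i.succAbove l) * Ψ i j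
    have hgc : ∀ l, (gc l).natDegree ≤ A := fun l => Polynomial.natDegree_map_le.trans (hgdeg l)
    have hΨ'deg : ∀ l j, (Ψ' l j).natDegree ≤ N + A := by
      intro l j
      refine (Polynomial.natDegree_sub_le _ _).trans ?_
      apply max_le
      · refine Polynomial.natDegree_mul_le.trans ?_
        have h1 := hgc i
        have h2 := hdeg (i.succAbove l) j
        omega
      · refine Polynomial.natDegree_mul_le.trans ?_
        have h1 := hgc (i.succAbove l)
        have h2 := hdeg i j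
        omega
    have hgceval : ∀ l (t : ℕ), (gc l).eval (t : ℂ) = (((g l).eval (t : ℤ) : ℤ) : ℂ) := by
      intro l t
      have h1 : ((t : ℤ) : ℂ) = (t : ℂ) := by simp
      rw [← h1]
      simp only [gc]
      rw [Polynomial.eval_intCast_map]
      simp
    have hsub : E ⊆ {t : ℕ | (g i).eval (t : ℤ) = 0} ∪
        (excCore s D Ψ' x H ∩ {t : ℕ | |(t : ℝ) - x| ≤ w}) := by
      intro t ht
      by_cases hgt : (g i).eval (t : ℤ) = 0
      · left; exact hgt
      right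
      refine ⟨⟨fun l => c t (i.succAbove l), fun l => hcH t ht.1 _, ?_⟩, ht.2⟩
      have hrel := hgrel t ht
      have hrelC : ∑ l, (((g l).eval (t : ℤ) : ℤ) : ℂ) * (c t l : ℂ) = 0 := by
        exact_mod_cast congrArg (fun z : ℤ => (z : ℂ)) hrel
      rw [Fin.sum_univ_succAbove _ i] at hrelC
      have hkey : ∀ j, ∑ l, (c t (i.succAbove l) : ℂ) * (Ψ' l j).eval (t : ℂ) =
          (((g i).eval (t : ℤ) : ℤ) : ℂ) * ∑ l, (c t l : ℂ) * (Ψ l j).eval (t : ℂ) := by
        intro j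
        rw [Fin.sum_univ_succAbove (fun l => (c t l : ℂ) * (Ψ l j).eval (t : ℂ)) i]
        have h1 : ∑ l, (c t (i.succAbove l) : ℂ) * (Ψ' l j).eval (t : ℂ) =
            (((g i).eval (t : ℤ) : ℤ) : ℂ) * ∑ l, (c t (i.succAbove l) : ℂ) *
              (Ψ (i.succAbove l) j).eval (t : ℂ) -
            (∑ l, (((g (i.succAbove l)).eval (t : ℤ) : ℤ) : ℂ) * (c t (i.succAbove l) : ℂ)) *
              (Ψ i j).eval (t : ℂ) := by
          rw [Finset.mul_sum, Finset.sum_mul, ← Finset.sum_sub_distrib]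
          refine Finset.sum_congr rfl fun l _ => ?_
          simp only [Ψ', Polynomial.eval_sub, Polynomial.eval_mul, hgceval]
          ring
        rw [h1]
        linear_combination (-(Ψ i j).eval (t : ℂ)) * hrelC
      have hgtC : (((g i).eval (t : ℤ) : ℤ) : ℂ) ≠ 0 := by exact_mod_cast hgt
      constructor
      · obtain ⟨j, hj⟩ := hcne t ht.1
        exact ⟨j, by rw [hkey j]; exact mul_ne_zero hgtC hj⟩
      · have h2 := hcrel t ht.1
        simp only [hkey, mul_assoc]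
        rw [← Finset.mul_sum, h2, mul_zero]
    obtain ⟨hrf, hrc⟩ := ncard_roots_le (g i) hi
    have hih' := hih (N + A) H T x hH hT hx1 hx2 Ψ' hΨ'deg
    have hcard : (E.ncard : ℝ) ≤ A + C * (1 + (N + A : ℕ) + Real.log H) ^ e := by
      have h1 : E.ncard ≤ {t : ℕ | (g i).eval (t : ℤ) = 0}.ncard +
          (excCore s D Ψ' x H ∩ {t : ℕ | |(t : ℝ) - x| ≤ w}).ncard :=
        (Set.ncard_le_ncard hsub (hrf.union ((finite_window x w).subset
          Set.inter_subset_right))).trans (Set.ncard_union_le _ _)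
      have h2 : ((E.ncard : ℕ) : ℝ) ≤ ({t : ℕ | (g i).eval (t : ℤ) = 0}.ncard : ℝ) +
          ((excCore s D Ψ' x H ∩ {t : ℕ | |(t : ℝ) - x| ≤ w}).ncard : ℝ) := by
        exact_mod_cast h1
      have h3 : ({t : ℕ | (g i).eval (t : ℤ) = 0}.ncard : ℝ) ≤ A := by
        exact_mod_cast hrc.trans (hgdeg i)
      linarith
    refine hcard.trans ?_
    have hBB : B ≤ B ^ 2 := by
      calc B = B * 1 := (mul_one B).symm
        _ ≤ B * B := by gcongr
        _ = B ^ 2 := (sq B).symm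
    have h4 : 1 + ((N + A : ℕ) : ℝ) + Real.log H ≤ (C' + 2) * B ^ 2 := by
      push_cast
      have : 1 + ((N : ℝ) + A) + Real.log H = B + A := by rw [hB]; ring
      rw [this]; linarith
    have h5 : C * (1 + ((N + A : ℕ) : ℝ) + Real.log H) ^ e ≤ C * ((C' + 2) * B ^ 2) ^ e := by
      gcongr
    have h6 : C * ((C' + 2) * B ^ 2) ^ e ≤ C * (C' + 2) ^ e * B ^ (2 * e + 2) := by
      rw [mul_pow, ← pow_mul, mul_assoc]
      gcongr
      omega
    have h7 : (A : ℝ) ≤ (C' + 1) * B ^ (2 * e + 2) := by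
      refine hAlt.trans ?_
      gcongr
      omega
    calc (A : ℝ) + C * (1 + ((N + A : ℕ) : ℝ) + Real.log H) ^ e
        ≤ (C' + 1) * B ^ (2 * e + 2) + C * (C' + 2) ^ e * B ^ (2 * e + 2) := by linarith
      _ = _ := by ring

end KAA
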