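import Mathlib

/-!
Statements (targets) for the almost-all result on Kummer periods.
-/

namespace KAA

open Finset

/-- Lower bound for exponential polynomials on a small disc around 0. -/
def T_LB : Prop :=
  ∀ D : ℕ, ∃ C : ℝ, 0 < C ∧ ∀ (N : ℕ) (g : Fin (D + 1) → Fin (N + 1) → ℂ) (r : ℝ),
    0 < r → r ≤ 1 → (∃ j a, 1 ≤ ‖g j a‖) →
    ∃ w : ℂ, ‖w‖ ≤ r ∧
      Real.exp (-(C * ((N : ℝ) + 1) ^ 2)) * r ^ ((N + 1) * (D + 1)) ≤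
        ‖∑ j : Fin (D + 1), ∑ a : Fin (N + 1),
            g j a * w ^ (j : ℕ) * Complex.exp ((a : ℕ) * w)‖

/-- Either some square choice of rows is nonsingular, or there is a common integer relation. -/
def T_RK : Prop :=
  ∀ (ι : Type) [Fintype ι] [DecidableEq ι] (E : Type) (v : E → ι → ℤ),
    (∃ e : ι → E, Matrix.det (fun k i => v (e k) i) ≠ 0) ∨
      (∃ g : ι → ℤ, g ≠ 0 ∧ ∀ e, ∑ i, g i * v e i = 0)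

/-- The determinant inequality. -/
def T_CL : Prop :=
  ∀ (s A : ℕ) (φ : Fin s → ℂ → ℂ) (t0 : ℂ) (R0 M : ℝ), 0 < R0 → 0 ≤ M →
    (∀ i, DifferentiableOn ℂ (φ i) (Metric.closedBall t0 R0)) →
    (∀ i, ∀ z ∈ Metric.closedBall t0 R0, ‖φ i z‖ ≤ M) →
    ∀ (t : Fin s × Fin (A + 1) → ℝ) (c : Fin s × Fin (A + 1) → Fin s → ℤ) (H : ℝ), 1 ≤ H →
    (∀ k i, |(c k i : ℝ)| ≤ H) →
    (∀ k, ∑ i, φ i (t k : ℂ) * (c k i : ℂ) = 0) →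
    ∀ (r : ℝ), 0 ≤ r → r ≤ R0 / 2 → (∀ k, ‖(t k : ℂ) - t0‖ ≤ r) → ∀ i0 : Fin s,
    ‖φ i0 t0‖ ^ (A + 1) *
        |Matrix.det (fun (k ia : Fin s × Fin (A + 1)) => (c k ia.1 : ℝ) * (t k) ^ (ia.2 : ℕ))| ≤
      (Nat.factorial (s * (A + 1)) : ℝ) * (2 * s * M) ^ (A + 1) * H ^ (s * (A + 1)) *
        r ^ (s * ∑ a ∈ range (A + 1), a) * (r / R0) ^ (∑ a ∈ range (A + 1), (a + 1))

/-- One variable: exceptional integers `t ≤ T` for the group generated by `θ`. -/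
def excOne (k D : ℕ) (θ : Fin k → ℂ) (H : ℝ) : Set ℕ :=
  {t | ∃ c : Fin (D + 1) → Fin k → ℤ, (∀ j i, |(c j i : ℝ)| ≤ H) ∧
    (∃ j, ∑ i, (c j i : ℂ) * θ i ≠ 0) ∧
    ∑ j, (∑ i, (c j i : ℂ) * θ i) * (Real.log t : ℂ) ^ (j : ℕ) = 0}

/-- `n` variables: exceptional tuples for the group generated by `θ`. -/
def excMulti (n k D : ℕ) (θ : Fin k → ℂ) (H : ℝ) : Set (Fin n → ℕ) :=
  {t | ∃ c : (Fin n → Fin (D + 1)) → Fin k → ℤ, (∀ β i, |(c β i : ℝ)| ≤ H) ∧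
    (∃ β, ∑ i, (c β i : ℂ) * θ i ≠ 0) ∧
    ∑ β, (∑ i, (c β i : ℂ) * θ i) * ∏ l, (Real.log (t l) : ℂ) ^ (β l : ℕ) = 0}

def One (k D : ℕ) : Prop :=
  ∃ κ : ℝ, 0 < κ ∧ κ ≤ 1 ∧ ∃ e : ℕ, ∃ K : ℝ, 0 < K ∧
    ∀ (θ : Fin k → ℂ) (T : ℕ) (H : ℝ), 1 ≤ T → 1 ≤ H →
      ((excOne k D θ H ∩ Set.Icc 1 T).ncard : ℝ) ≤ K * (T : ℝ) ^ (1 - κ) * (1 + Real.log H) ^ e

def Multi (n k D : ℕ) : Prop :=
  ∃ κ : ℝ, 0 < κ ∧ κ ≤ 1 ∧ ∃ e : ℕ, ∃ K : ℝ, 0 < K ∧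
    ∀ (θ : Fin k → ℂ) (T : ℕ) (H : ℝ), 1 ≤ T → 1 ≤ H →
      ((excMulti n k D θ H ∩ Set.pi Set.univ (fun _ => Set.Icc 1 T)).ncard : ℝ) ≤
        K * (T : ℝ) ^ ((n : ℝ) - κ) * (1 + Real.log H) ^ e

def T_ONE : Prop := ∀ k D : ℕ, One k D

def T_MULTI : Prop := (∀ k D : ℕ, One k D) → ∀ n k D : ℕ, Multi n k D

/-- Lindemann: no nonzero integer polynomial vanishes at `2 π i`. -/
def T_PI : Prop :=
  ∀ P : Polynomial ℤ, P ≠ 0 → Polynomial.aeval (2 * (Real.pi : ℂ) * Complex.I) P ≠ 0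

end KAA
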