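import Pool.Agent.KAA.Defs

/-!
# Lower bound for exponential polynomials on a small disc
-/

set_option autoImplicit false

namespace KAA

namespace LB_

open Polynomial Finset

lemma iter_term (n j : ℕ) (a : ℂ) :
    iteratedDeriv n (fun w : ℂ => w ^ j * Complex.exp (a * w)) 0 =
      (derivative^[j] (X ^ n : ℂ[X])).eval a := by
  rw [iteratedDeriv_fun_mul (by fun_prop) (by fun_prop), iterate_derivative_X_pow_eq_smul]
  simp only [iteratedDeriv_fun_pow_zero, iteratedDeriv_cexp_const_mul, eval_smul, eval_pow, eval_X,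
    smul_eq_mul, mul_zero, Complex.exp_zero, mul_one]
  by_cases hj : j ≤ n
  · rw [Finset.sum_eq_single j]
    · rw [if_pos rfl, Nat.descFactorial_eq_factorial_mul_choose]
      push_cast
      ring
    · intro i _ hij
      simp [hij]
    · intro h
      exact absurd (Finset.mem_range.2 (by omega)) h
  · rw [Nat.descFactorial_eq_zero_iff_lt.2 (by omega)]
    simp only [Nat.cast_zero, zero_mul]
    apply Finset.sum_eq_zero
    intro i hi
    have : i ≠ j := by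
      have := Finset.mem_range.1 hi
      omega
    simp [this]

/-- The exponential polynomial. -/
noncomputable def G (D N : ℕ) (g : Fin (D + 1) → Fin (N + 1) → ℂ) (w : ℂ) : ℂ :=
  ∑ j : Fin (D + 1), ∑ a : Fin (N + 1), g j a * w ^ (j : ℕ) * Complex.exp ((a : ℕ) * w)

/-- The functional. -/
noncomputable def Lam (D N : ℕ) (g : Fin (D + 1) → Fin (N + 1) → ℂ) (p : ℂ[X]) : ℂ :=
  ∑ j : Fin (D + 1), ∑ a : Fin (N + 1), g j a * (derivative^[(j : ℕ)] p).eval ((a : ℕ) : ℂ)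

lemma iter_G (D N : ℕ) (g : Fin (D + 1) → Fin (N + 1) → ℂ) (n : ℕ) :
    iteratedDeriv n (G D N g) 0 = Lam D N g (X ^ n) := by
  have h0 : G D N g = fun w => ∑ j : Fin (D + 1), ∑ a : Fin (N + 1),
      g j a * (w ^ (j : ℕ) * Complex.exp (((a : ℕ) : ℂ) * w)) := by
    funext w
    simp only [G, mul_assoc]
  rw [h0, iteratedDeriv_fun_sum (fun j _ => by fun_prop)]
  unfold Lam
  refine Finset.sum_congr rfl fun j _ => ?_
  rw [iteratedDeriv_fun_sum (fun a _ => by fun_prop)]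
  refine Finset.sum_congr rfl fun a _ => ?_
  rw [iteratedDeriv_const_mul_field, iter_term]

lemma diff_G (D N : ℕ) (g : Fin (D + 1) → Fin (N + 1) → ℂ) : Differentiable ℂ (G D N g) := by
  unfold G
  fun_prop

lemma cauchy (D N : ℕ) (g : Fin (D + 1) → Fin (N + 1) → ℂ) (r ε : ℝ) (hr : 0 < r)
    (hG : ∀ w : ℂ, ‖w‖ ≤ r → ‖G D N g w‖ ≤ ε) (n : ℕ) :
    ‖Lam D N g (X ^ n)‖ ≤ n.factorial * ε / r ^ n := by
  rw [← iter_G]
  apply Complex.norm_iteratedDeriv_le_of_forall_mem_sphere_norm_le n hr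
  · exact (diff_G D N g).diffContOnCl
  · intro z hz
    apply hG
    rw [mem_sphere_zero_iff_norm] at hz
    exact hz.le

lemma expand (p : ℂ[X]) (n k : ℕ) (hn : p.natDegree < n) (x : ℂ) :
    (derivative^[k] p).eval x =
      ∑ i ∈ range n, p.coeff i * (derivative^[k] (X ^ i : ℂ[X])).eval x := by
  conv_lhs => rw [p.as_sum_range_C_mul_X_pow' hn]
  rw [iterate_derivative_sum, eval_finsetSum]
  refine Finset.sum_congr rfl fun i _ => ?_
  rw [iterate_derivative_C_mul, eval_mul, eval_C]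

lemma Lam_expand (D N : ℕ) (g : Fin (D + 1) → Fin (N + 1) → ℂ) (p : ℂ[X]) (n : ℕ)
    (hn : p.natDegree < n) :
    Lam D N g p = ∑ i ∈ range n, p.coeff i * Lam D N g (X ^ i) := by
  unfold Lam
  symm
  simp only [Finset.mul_sum]
  rw [Finset.sum_comm]
  refine Finset.sum_congr rfl fun j _ => ?_
  rw [Finset.sum_comm]
  refine Finset.sum_congr rfl fun a _ => ?_
  rw [expand p n j hn, Finset.mul_sum]
  refine Finset.sum_congr rfl fun i _ => ?_
  ring

/-- Sum of the norms of the first coefficients. -/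
noncomputable def L (n : ℕ) (p : ℂ[X]) : ℝ := ∑ i ∈ range n, ‖p.coeff i‖

lemma L_nonneg (n : ℕ) (p : ℂ[X]) : 0 ≤ L n p := Finset.sum_nonneg fun _ _ => norm_nonneg _

lemma L_one (n : ℕ) : L n 1 ≤ 1 := by
  unfold L
  have h : ∀ i ∈ range n, ‖(1 : ℂ[X]).coeff i‖ = if i = 0 then (1 : ℝ) else 0 := by
    intro i _
    rw [coeff_one]
    split_ifs <;> simp
  calc ∑ i ∈ range n, ‖(1 : ℂ[X]).coeff i‖ = ∑ i ∈ range n, if i = 0 then (1 : ℝ) else 0 :=
        Finset.sum_congr rfl h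
    _ ≤ 1 := by
        rw [Finset.sum_ite_eq']
        split_ifs <;> norm_num

lemma L_mul (n : ℕ) (a : ℂ) (p : ℂ[X]) : L n ((X - C a) * p) ≤ (1 + ‖a‖) * L n p := by
  have h1 : ∀ i ∈ range n, ‖((X - C a) * p).coeff i‖ ≤ ‖(X * p).coeff i‖ + ‖a‖ * ‖p.coeff i‖ := by
    intro i _
    rw [sub_mul, coeff_sub, coeff_C_mul, ← norm_mul]
    exact norm_sub_le _ _
  have h2 : ∑ i ∈ range n, ‖(X * p).coeff i‖ ≤ L n p := by
    unfold L
    cases n with
    | zero => simp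
    | succ n =>
      rw [Finset.sum_range_succ', Finset.sum_range_succ]
      simp only [coeff_X_mul, mul_coeff_zero, coeff_X_zero, zero_mul, norm_zero, add_zero]
      linarith [norm_nonneg (p.coeff n)]
  calc L n ((X - C a) * p) ≤ ∑ i ∈ range n, (‖(X * p).coeff i‖ + ‖a‖ * ‖p.coeff i‖) :=
        Finset.sum_le_sum h1
    _ = ∑ i ∈ range n, ‖(X * p).coeff i‖ + ‖a‖ * L n p := by
        rw [Finset.sum_add_distrib, ← Finset.mul_sum]
        rfl
    _ ≤ (1 + ‖a‖) * L n p := by linarith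

lemma L_pow_mul (n k : ℕ) (a : ℂ) (M : ℝ) (hM : 1 + ‖a‖ ≤ M) (p : ℂ[X]) :
    L n ((X - C a) ^ k * p) ≤ M ^ k * L n p := by
  have hM0 : 0 ≤ M := le_trans (by positivity) hM
  induction k with
  | zero => simp
  | succ k ih =>
    rw [pow_succ', mul_assoc]
    calc L n ((X - C a) * ((X - C a) ^ k * p)) ≤ (1 + ‖a‖) * L n ((X - C a) ^ k * p) := L_mul _ _ _
      _ ≤ M * L n ((X - C a) ^ k * p) := mul_le_mul_of_nonneg_right hM (L_nonneg _ _)
      _ ≤ M * (M ^ k * L n p) := mul_le_mul_of_nonneg_left ih hM0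
      _ = M ^ (k + 1) * L n p := by ring

lemma L_prod {ι : Type} [DecidableEq ι] (s : Finset ι) (f : ι → ℂ) (n k : ℕ) (M : ℝ)
    (hM : ∀ i ∈ s, 1 + ‖f i‖ ≤ M) (hM1 : 1 ≤ M) :
    L n (∏ i ∈ s, (X - C (f i)) ^ k) ≤ M ^ (s.card * k) := by
  induction s using Finset.induction_on with
  | empty => simpa using L_one n
  | insert a s ha ih =>
    rw [Finset.prod_insert ha, Finset.card_insert_of_notMem ha]
    calc L n ((X - C (f a)) ^ k * ∏ i ∈ s, (X - C (f i)) ^ k)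
        ≤ M ^ k * L n (∏ i ∈ s, (X - C (f i)) ^ k) :=
          L_pow_mul n k _ M (hM a (Finset.mem_insert_self _ _)) _
      _ ≤ M ^ k * M ^ (s.card * k) :=
          mul_le_mul_of_nonneg_left (ih fun i hi => hM i (Finset.mem_insert_of_mem hi))
            (by positivity)
      _ = M ^ ((s.card + 1) * k) := by rw [← pow_add]; congr 1; ring

/-- the polynomial vanishing at the other nodes -/
noncomputable def Q (D N : ℕ) (a : Fin (N + 1)) : ℂ[X] :=
  ∏ b ∈ univ.erase a, (X - C (((b : Fin (N + 1)) : ℕ) : ℂ)) ^ (D + 1)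

lemma norm_cast_le {N : ℕ} (b : Fin (N + 1)) : 1 + ‖(((b : Fin (N + 1)) : ℕ) : ℂ)‖ ≤ (N : ℝ) + 1 := by
  rw [Complex.norm_natCast]
  have : ((b : ℕ) : ℝ) ≤ N := by exact_mod_cast Nat.lt_succ_iff.1 b.2
  linarith

lemma L_P (D N : ℕ) (a : Fin (N + 1)) (j n : ℕ) (hj : j ≤ D) :
    L n ((X - C ((a : ℕ) : ℂ)) ^ j * Q D N a) ≤ ((N : ℝ) + 1) ^ ((N + 1) * (D + 1)) := by
  have h1 : L n (Q D N a) ≤ ((N : ℝ) + 1) ^ ((univ.erase a).card * (D + 1)) := by
    unfold Q
    exact L_prod (univ.erase a) (fun b => (((b : Fin (N + 1)) : ℕ) : ℂ)) n (D + 1) ((N : ℝ) + 1)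
      (fun b _ => norm_cast_le b) (by linarith [(Nat.cast_nonneg N : (0 : ℝ) ≤ N)])
  have h2 := L_pow_mul n j ((a : ℕ) : ℂ) ((N : ℝ) + 1) (norm_cast_le a) (Q D N a)
  have hN : (1 : ℝ) ≤ (N : ℝ) + 1 := by linarith [(Nat.cast_nonneg N : (0 : ℝ) ≤ N)]
  have hc : (univ.erase a).card = N := by
    rw [Finset.card_erase_of_mem (Finset.mem_univ _)]
    simp
  rw [hc] at h1
  calc L n ((X - C ((a : ℕ) : ℂ)) ^ j * Q D N a) ≤ ((N : ℝ) + 1) ^ j * L n (Q D N a) := h2
    _ ≤ ((N : ℝ) + 1) ^ j * ((N : ℝ) + 1) ^ (N * (D + 1)) :=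
        mul_le_mul_of_nonneg_left h1 (by positivity)
    _ = ((N : ℝ) + 1) ^ (j + N * (D + 1)) := by rw [pow_add]
    _ ≤ ((N : ℝ) + 1) ^ ((N + 1) * (D + 1)) := by
        apply pow_le_pow_right₀ hN
        nlinarith

lemma natDegree_P (D N : ℕ) (a : Fin (N + 1)) (j : ℕ) (hj : j ≤ D) :
    ((X - C ((a : ℕ) : ℂ)) ^ j * Q D N a).natDegree < (N + 1) * (D + 1) := by
  have hc : (univ.erase a).card = N := by
    rw [Finset.card_erase_of_mem (Finset.mem_univ _)]
    simp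
  have h1 : (Q D N a).natDegree ≤ N * (D + 1) := by
    unfold Q
    calc (∏ b ∈ univ.erase a, (X - C (((b : Fin (N + 1)) : ℕ) : ℂ)) ^ (D + 1)).natDegree
        ≤ ∑ b ∈ univ.erase a, ((X - C (((b : Fin (N + 1)) : ℕ) : ℂ)) ^ (D + 1)).natDegree :=
          natDegree_prod_le _ _
      _ ≤ ∑ b ∈ univ.erase a, (D + 1) := by
          apply Finset.sum_le_sum
          intro b _
          rw [natDegree_pow, natDegree_X_sub_C, mul_one]
      _ = N * (D + 1) := by rw [Finset.sum_const, hc, smul_eq_mul]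
  have h2 : ((X - C ((a : ℕ) : ℂ)) ^ j).natDegree = j := by
    rw [natDegree_pow, natDegree_X_sub_C, mul_one]
  calc ((X - C ((a : ℕ) : ℂ)) ^ j * Q D N a).natDegree
      ≤ ((X - C ((a : ℕ) : ℂ)) ^ j).natDegree + (Q D N a).natDegree := natDegree_mul_le
    _ ≤ j + N * (D + 1) := by omega
    _ < (N + 1) * (D + 1) := by nlinarith

lemma eval_zero_of_dvd (p : ℂ[X]) (x : ℂ) (m k : ℕ) (hk : k < m) (h : (X - C x) ^ m ∣ p) :
    (derivative^[k] p).eval x = 0 := by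
  have h1 : (X - C x) ^ (m - k) ∣ derivative^[k] p := pow_sub_dvd_iterate_derivative_of_pow_dvd k h
  have h2 : (X - C x) ∣ derivative^[k] p := (dvd_pow_self _ (by omega)).trans h1
  exact dvd_iff_isRoot.1 h2

lemma eval_top (q : ℂ[X]) (x : ℂ) (j : ℕ) :
    (derivative^[j] ((X - C x) ^ j * q)).eval x = (j.factorial : ℂ) * q.eval x := by
  have h1 : derivative^[j] ((X - C x) ^ j * q) = j.factorial • hasseDeriv j ((X - C x) ^ j * q) := by
    rw [← factorial_smul_hasseDeriv]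
    rfl
  rw [h1, eval_smul, nsmul_eq_mul, ← taylor_coeff, taylor_mul, taylor_pow]
  have h2 : taylor x (X - C x) = X := by
    simp
  rw [h2, coeff_X_pow_mul', if_pos le_rfl, Nat.sub_self, taylor_coeff_zero]

lemma Q_eval (D N : ℕ) (a : Fin (N + 1)) : 1 ≤ ‖(Q D N a).eval ((a : ℕ) : ℂ)‖ := by
  unfold Q
  rw [eval_prod, norm_prod]
  have key : ∀ s : Finset (Fin (N + 1)), a ∉ s →
      1 ≤ ∏ b ∈ s, ‖eval ((a : ℕ) : ℂ) ((X - C ((b : ℕ) : ℂ)) ^ (D + 1))‖ := by
    intro s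
    induction s using Finset.induction_on with
    | empty => simp
    | insert b s hb ih =>
      intro ha
      rw [Finset.mem_insert, not_or] at ha
      rw [Finset.prod_insert hb]
      have h1 := ih ha.2
      have h2 : 1 ≤ ‖eval ((a : ℕ) : ℂ) ((X - C ((b : ℕ) : ℂ)) ^ (D + 1))‖ := by
        rw [eval_pow, eval_sub, eval_X, eval_C, norm_pow]
        apply one_le_pow₀
        have h3 : ((a : ℕ) : ℂ) - ((b : ℕ) : ℂ) = ((((a : ℕ) : ℤ) - ((b : ℕ) : ℤ) : ℤ) : ℂ) := by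
          push_cast
          rfl
        rw [h3, Complex.norm_intCast]
        have h4 : ((a : ℕ) : ℤ) - ((b : ℕ) : ℤ) ≠ 0 := by
          intro h5
          apply ha.1
          apply Fin.ext
          omega
        exact_mod_cast Int.one_le_abs h4
      nlinarith
  exact key _ (by simp)

lemma ev_bound (D N : ℕ) (p : ℂ[X]) (hp : p.natDegree < (N + 1) * (D + 1)) (k : ℕ) (hk : k ≤ D)
    (a : Fin (N + 1)) :
    ‖(derivative^[k] p).eval ((a : ℕ) : ℂ)‖ ≤
      L ((N + 1) * (D + 1)) p * ((((N + 1) * (D + 1) : ℕ) : ℝ) ^ D *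
        ((N : ℝ) + 1) ^ ((N + 1) * (D + 1))) := by
  rw [expand p _ k hp]
  refine (norm_sum_le _ _).trans ?_
  unfold L
  rw [Finset.sum_mul]
  apply Finset.sum_le_sum
  intro i hi
  have hi' := Finset.mem_range.1 hi
  rw [norm_mul]
  apply mul_le_mul_of_nonneg_left _ (norm_nonneg _)
  rw [iterate_derivative_X_pow_eq_smul, eval_smul, eval_pow, eval_X, smul_eq_mul, norm_mul,
    norm_pow, Complex.norm_natCast, Complex.norm_natCast]
  have hN : (1 : ℝ) ≤ (N : ℝ) + 1 := by linarith [(Nat.cast_nonneg N : (0 : ℝ) ≤ N)]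
  have ha : ((a : ℕ) : ℝ) ≤ (N : ℝ) + 1 := by
    have : ((a : ℕ) : ℝ) ≤ N := by exact_mod_cast Nat.lt_succ_iff.1 a.2
    linarith
  have hR : (1 : ℝ) ≤ (((N + 1) * (D + 1) : ℕ) : ℝ) := by
    exact_mod_cast Nat.succ_le_of_lt (by positivity)
  apply mul_le_mul
  · calc ((i.descFactorial k : ℕ) : ℝ) ≤ ((i ^ k : ℕ) : ℝ) := by
          exact_mod_cast Nat.descFactorial_le_pow i k
      _ = (i : ℝ) ^ k := by push_cast; rfl
      _ ≤ (((N + 1) * (D + 1) : ℕ) : ℝ) ^ k := by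
          apply pow_le_pow_left₀ (Nat.cast_nonneg _)
          exact_mod_cast hi'.le
      _ ≤ (((N + 1) * (D + 1) : ℕ) : ℝ) ^ D := pow_le_pow_right₀ hR hk
  · calc ((a : ℕ) : ℝ) ^ (i - k) ≤ ((N : ℝ) + 1) ^ (i - k) := pow_le_pow_left₀ (by positivity) ha _
      _ ≤ ((N : ℝ) + 1) ^ ((N + 1) * (D + 1)) := pow_le_pow_right₀ hN (by omega)
  · positivity
  · positivity

lemma Lam_bound (D N : ℕ) (g : Fin (D + 1) → Fin (N + 1) → ℂ) (r ε : ℝ) (hr : 0 < r) (hr1 : r ≤ 1)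
    (hε : 0 ≤ ε) (hG : ∀ w : ℂ, ‖w‖ ≤ r → ‖G D N g w‖ ≤ ε) (R : ℕ) (p : ℂ[X])
    (hp : p.natDegree < R) :
    ‖Lam D N g p‖ ≤ L R p * (R.factorial * ε / r ^ R) := by
  rw [Lam_expand D N g p R hp]
  refine (norm_sum_le _ _).trans ?_
  unfold L
  rw [Finset.sum_mul]
  apply Finset.sum_le_sum
  intro i hi
  have hi' := Finset.mem_range.1 hi
  rw [norm_mul]
  apply mul_le_mul_of_nonneg_left _ (norm_nonneg _)
  refine (cauchy D N g r ε hr hG i).trans ?_
  have h1 : (i.factorial : ℝ) ≤ R.factorial := by exact_mod_cast Nat.factorial_le hi'.le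
  apply div_le_div₀ (by positivity) (mul_le_mul_of_nonneg_right h1 hε) (by positivity)
  exact pow_le_pow_of_le_one hr.le hr1 hi'.le

lemma down (D : ℕ) (x : ℕ → ℝ) (lam W : ℝ) (hW : 0 ≤ W)
    (h : ∀ j ≤ D, x j ≤ lam + W * ∑ k ∈ Ico (j + 1) (D + 1), x k) :
    ∀ m j : ℕ, j + m = D →
      lam + W * ∑ k ∈ Ico (j + 1) (D + 1), x k ≤ lam * (1 + W) ^ m := by
  intro m
  induction m with
  | zero =>
    intro j hj
    have : j = D := by omega
    subst this
    simp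
  | succ m ih =>
    intro j hj
    have h1 := ih (j + 1) (by omega)
    have h2 := h (j + 1) (by omega)
    rw [Finset.sum_eq_sum_Ico_succ_bot (by omega : j + 1 < D + 1)]
    have h3 : W * x (j + 1) ≤ W * (lam + W * ∑ k ∈ Ico (j + 1 + 1) (D + 1), x k) :=
      mul_le_mul_of_nonneg_left h2 hW
    calc lam + W * (x (j + 1) + ∑ k ∈ Ico (j + 1 + 1) (D + 1), x k)
        = (lam + W * ∑ k ∈ Ico (j + 1 + 1) (D + 1), x k) + W * x (j + 1) := by ring
      _ ≤ (1 + W) * (lam + W * ∑ k ∈ Ico (j + 1 + 1) (D + 1), x k) := by linarith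
      _ ≤ (1 + W) * (lam * (1 + W) ^ m) := mul_le_mul_of_nonneg_left h1 (by linarith)
      _ = lam * (1 + W) ^ (m + 1) := by ring

lemma coeff_bound (D N : ℕ) (g : Fin (D + 1) → Fin (N + 1) → ℂ) (r ε : ℝ) (hr : 0 < r)
    (hr1 : r ≤ 1) (hε : 0 ≤ ε) (hG : ∀ w : ℂ, ‖w‖ ≤ r → ‖G D N g w‖ ≤ ε) (R : ℕ)
    (hR : R = (N + 1) * (D + 1)) (lam W : ℝ)
    (hlam : lam = ((N : ℝ) + 1) ^ R * (R.factorial * ε / r ^ R))
    (hWd : W = ((N : ℝ) + 1) ^ R * ((R : ℝ) ^ D * ((N : ℝ) + 1) ^ R))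
    (j : Fin (D + 1)) (a : Fin (N + 1)) : ‖g j a‖ ≤ lam * (1 + W) ^ D := by
  have hW : 0 ≤ W := by rw [hWd]; positivity
  have hlam0 : 0 ≤ lam := by rw [hlam]; positivity
  let y : ℕ → ℂ := fun k => if h : k < D + 1 then g ⟨k, h⟩ a else 0
  have hy : ∀ i : Fin (D + 1), y i = g i a := fun i => dif_pos i.2
  have hstep : ∀ k ≤ D, ‖y k‖ ≤ lam + W * ∑ i ∈ Ico (k + 1) (D + 1), ‖y i‖ := by
    intro k hk
    set p : ℂ[X] := (X - C ((a : ℕ) : ℂ)) ^ k * Q D N a with hp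
    have hdeg : p.natDegree < R := by rw [hR]; exact natDegree_P D N a k hk
    have hL : L R p ≤ ((N : ℝ) + 1) ^ R := by
      have := L_P D N a k R hk
      rwa [← hR] at this
    have hLam : Lam D N g p = ∑ i ∈ range (D + 1), y i * (derivative^[i] p).eval ((a : ℕ) : ℂ) := by
      rw [← Fin.sum_univ_eq_sum_range (fun i => y i * (derivative^[i] p).eval ((a : ℕ) : ℂ))]
      unfold Lam
      refine Finset.sum_congr rfl fun i _ => ?_
      rw [Finset.sum_eq_single a]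
      · rw [hy]
      · intro b _ hb
        rw [eval_zero_of_dvd p _ (D + 1) i i.2, mul_zero]
        apply Dvd.dvd.mul_left
        exact Finset.dvd_prod_of_mem (fun b : Fin (N + 1) => (X - C ((b : ℕ) : ℂ)) ^ (D + 1))
          (by simp [hb])
      · intro h
        exact absurd (Finset.mem_univ _) h
    have hsplit : ∑ i ∈ range (D + 1), y i * (derivative^[i] p).eval ((a : ℕ) : ℂ) =
        y k * (derivative^[k] p).eval ((a : ℕ) : ℂ) +
          ∑ i ∈ Ico (k + 1) (D + 1), y i * (derivative^[i] p).eval ((a : ℕ) : ℂ) := by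
      rw [Finset.range_eq_Ico, ← Finset.sum_Ico_consecutive _ (Nat.zero_le k) (by omega : k ≤ D + 1),
        Finset.sum_eq_sum_Ico_succ_bot (by omega : k < D + 1)]
      have : ∑ i ∈ Ico 0 k, y i * (derivative^[i] p).eval ((a : ℕ) : ℂ) = 0 := by
        apply Finset.sum_eq_zero
        intro i hi
        have hi' := (Finset.mem_Ico.1 hi).2
        rw [eval_zero_of_dvd p _ k i hi' (Dvd.intro _ rfl), mul_zero]
      rw [this, zero_add]
    have htop : 1 ≤ ‖(derivative^[k] p).eval ((a : ℕ) : ℂ)‖ := by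
      rw [hp, eval_top, norm_mul, Complex.norm_natCast]
      have h1 : (1 : ℝ) ≤ (k.factorial : ℝ) := by exact_mod_cast Nat.succ_le_of_lt (Nat.factorial_pos k)
      have h2 := Q_eval D N a
      nlinarith
    have hev : ∀ i ∈ Ico (k + 1) (D + 1), ‖(derivative^[i] p).eval ((a : ℕ) : ℂ)‖ ≤ W := by
      intro i hi
      have hi' := (Finset.mem_Ico.1 hi).2
      have h1 := ev_bound D N p (by rw [← hR]; exact hdeg) i (by omega) a
      rw [← hR] at h1
      refine h1.trans ?_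
      rw [hWd]
      exact mul_le_mul_of_nonneg_right hL (by positivity)
    have hLb : ‖Lam D N g p‖ ≤ lam := by
      refine (Lam_bound D N g r ε hr hr1 hε hG R p hdeg).trans ?_
      rw [hlam]
      exact mul_le_mul_of_nonneg_right hL (by positivity)
    have heq : y k * (derivative^[k] p).eval ((a : ℕ) : ℂ) =
        Lam D N g p - ∑ i ∈ Ico (k + 1) (D + 1), y i * (derivative^[i] p).eval ((a : ℕ) : ℂ) := by
      rw [hLam, hsplit]
      ring
    calc ‖y k‖ ≤ ‖y k‖ * ‖(derivative^[k] p).eval ((a : ℕ) : ℂ)‖ :=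
          le_mul_of_one_le_right (norm_nonneg _) htop
      _ = ‖y k * (derivative^[k] p).eval ((a : ℕ) : ℂ)‖ := (norm_mul _ _).symm
      _ = ‖Lam D N g p - ∑ i ∈ Ico (k + 1) (D + 1),
            y i * (derivative^[i] p).eval ((a : ℕ) : ℂ)‖ := by rw [heq]
      _ ≤ ‖Lam D N g p‖ + ‖∑ i ∈ Ico (k + 1) (D + 1),
            y i * (derivative^[i] p).eval ((a : ℕ) : ℂ)‖ := norm_sub_le _ _
      _ ≤ lam + ∑ i ∈ Ico (k + 1) (D + 1), ‖y i * (derivative^[i] p).eval ((a : ℕ) : ℂ)‖ :=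
          add_le_add hLb (norm_sum_le _ _)
      _ ≤ lam + ∑ i ∈ Ico (k + 1) (D + 1), W * ‖y i‖ := by
          apply add_le_add_right
          apply Finset.sum_le_sum
          intro i hi
          rw [norm_mul, mul_comm]
          exact mul_le_mul_of_nonneg_right (hev i hi) (norm_nonneg _)
      _ = lam + W * ∑ i ∈ Ico (k + 1) (D + 1), ‖y i‖ := by rw [Finset.mul_sum]
  have hd := down D (fun k => ‖y k‖) lam W hW hstep
  have h1 := hstep j (by omega)
  have h2 := hd (D - j) j (by omega)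
  rw [hy] at h1
  calc ‖g j a‖ ≤ lam + W * ∑ i ∈ Ico ((j : ℕ) + 1) (D + 1), ‖y i‖ := h1
    _ ≤ lam * (1 + W) ^ (D - j) := h2
    _ ≤ lam * (1 + W) ^ D :=
        mul_le_mul_of_nonneg_left (pow_le_pow_right₀ (by linarith) (by omega)) hlam0

lemma le_exp_pow (x y : ℝ) (hx : 0 ≤ x) (hxy : x ≤ y) (k : ℕ) :
    x ^ k ≤ Real.exp (y * k) := by
  rw [mul_comm, Real.exp_nat_mul]
  apply pow_le_pow_left₀ hx
  linarith [Real.add_one_le_exp y]

end LB_

open LB_ in
theorem tLB : T_LB := by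
  intro D
  set d : ℝ := (D : ℝ) + 1 with hd
  have hd1 : 1 ≤ d := by rw [hd]; linarith [(Nat.cast_nonneg D : (0 : ℝ) ≤ D)]
  refine ⟨d + d * d + (1 + d * D + 2 * d) * D + 1, by positivity, ?_⟩
  intro N g r hr hr1 ⟨j, a, hja⟩
  by_contra hcon
  push Not at hcon
  set C : ℝ := d + d * d + (1 + d * D + 2 * d) * D + 1 with hC
  set m : ℝ := (N : ℝ) + 1 with hm
  have hm1 : 1 ≤ m := by rw [hm]; linarith [(Nat.cast_nonneg N : (0 : ℝ) ≤ N)]
  set R : ℕ := (N + 1) * (D + 1) with hR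
  have hRr : (R : ℝ) = m * d := by rw [hR, hm, hd]; push_cast; ring
  set ε : ℝ := Real.exp (-(C * m ^ 2)) * r ^ R with hε
  have hε0 : 0 ≤ ε := by positivity
  have hG : ∀ w : ℂ, ‖w‖ ≤ r → ‖G D N g w‖ ≤ ε := fun w hw => (hcon w hw).le
  have hb := coeff_bound D N g r ε hr hr1 hε0 hG R hR _ _ rfl rfl j a
  have hrR : 0 < r ^ R := by positivity
  rw [← hm] at hb
  have hfac : (R.factorial : ℝ) * ε / r ^ R = R.factorial * Real.exp (-(C * m ^ 2)) := by
    rw [hε]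
    field_simp
  rw [hfac] at hb
  -- bounds
  have e1 : m ^ R ≤ Real.exp (d * m ^ 2) := by
    refine (le_exp_pow m m (by positivity) le_rfl R).trans (le_of_eq ?_)
    rw [hRr]; ring_nf
  have e2 : (R.factorial : ℝ) ≤ Real.exp (d * d * m ^ 2) := by
    have h1 : (R.factorial : ℝ) ≤ (R : ℝ) ^ R := by exact_mod_cast Nat.factorial_le_pow R
    refine h1.trans ((le_exp_pow (R : ℝ) R (by positivity) le_rfl R).trans (le_of_eq ?_))
    rw [hRr]; ring_nf
  have e3 : (R : ℝ) ^ D ≤ Real.exp (d * D * m ^ 2) := by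
    refine (le_exp_pow (R : ℝ) R (by positivity) le_rfl D).trans (Real.exp_le_exp.2 ?_)
    rw [hRr]
    have : m ≤ m ^ 2 := by nlinarith
    have h0 : 0 ≤ d * D := by positivity
    nlinarith
  have e4 : 1 + m ^ R * ((R : ℝ) ^ D * m ^ R) ≤ Real.exp ((1 + d * D + 2 * d) * m ^ 2) := by
    have h1 : m ^ R * ((R : ℝ) ^ D * m ^ R) ≤ Real.exp ((d * D + 2 * d) * m ^ 2) := by
      calc m ^ R * ((R : ℝ) ^ D * m ^ R)
          ≤ Real.exp (d * m ^ 2) * (Real.exp (d * D * m ^ 2) * Real.exp (d * m ^ 2)) := by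
            gcongr
        _ = Real.exp ((d * D + 2 * d) * m ^ 2) := by
            rw [← Real.exp_add, ← Real.exp_add]; congr 1; ring
    have h2 : (1 : ℝ) ≤ Real.exp ((d * D + 2 * d) * m ^ 2) := Real.one_le_exp (by positivity)
    have h3 : (2 : ℝ) ≤ Real.exp (m ^ 2) := by
      have := Real.add_one_le_exp (m ^ 2)
      nlinarith
    calc 1 + m ^ R * ((R : ℝ) ^ D * m ^ R) ≤ 2 * Real.exp ((d * D + 2 * d) * m ^ 2) := by linarith
      _ ≤ Real.exp (m ^ 2) * Real.exp ((d * D + 2 * d) * m ^ 2) :=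
          mul_le_mul_of_nonneg_right h3 (by positivity)
      _ = Real.exp ((1 + d * D + 2 * d) * m ^ 2) := by rw [← Real.exp_add]; congr 1; ring
  have e5 : (1 + m ^ R * ((R : ℝ) ^ D * m ^ R)) ^ D ≤
      Real.exp ((1 + d * D + 2 * d) * D * m ^ 2) := by
    calc (1 + m ^ R * ((R : ℝ) ^ D * m ^ R)) ^ D
        ≤ (Real.exp ((1 + d * D + 2 * d) * m ^ 2)) ^ D := by gcongr
      _ = Real.exp ((1 + d * D + 2 * d) * D * m ^ 2) := by
          rw [← Real.exp_nat_mul]; congr 1; ring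
  have e6 : m ^ R * (R.factorial * Real.exp (-(C * m ^ 2))) *
      (1 + m ^ R * ((R : ℝ) ^ D * m ^ R)) ^ D ≤ Real.exp (-(m ^ 2)) := by
    calc m ^ R * (R.factorial * Real.exp (-(C * m ^ 2))) *
        (1 + m ^ R * ((R : ℝ) ^ D * m ^ R)) ^ D
        ≤ Real.exp (d * m ^ 2) * (Real.exp (d * d * m ^ 2) * Real.exp (-(C * m ^ 2))) *
          Real.exp ((1 + d * D + 2 * d) * D * m ^ 2) := by gcongr
      _ = Real.exp (-(m ^ 2)) := by
          rw [← Real.exp_add, ← Real.exp_add, ← Real.exp_add]; congr 1; rw [hC]; ring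
  have e7 : Real.exp (-(m ^ 2)) < 1 := by
    rw [Real.exp_lt_one_iff]
    have : 0 < m ^ 2 := by positivity
    linarith
  linarith

end KAA
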