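import Pool.Agent.KAA.Defs

/-!
Reduction of the `n` variable count to the one variable count (`T_MULTI`).
-/

namespace KAA

open Finset

noncomputable def thp (k D : ℕ) (θ : Fin k → ℂ) (t0 : ℕ) : Fin ((D + 1) * k) → ℂ :=
  fun x => θ (finProdFinEquiv.symm x).2 *
    (Real.log t0 : ℂ) ^ (((finProdFinEquiv.symm x).1 : Fin (D + 1)) : ℕ)

def cp (n k D : ℕ) (c : (Fin (n + 1) → Fin (D + 1)) → Fin k → ℤ) :
    (Fin n → Fin (D + 1)) → Fin ((D + 1) * k) → ℤ :=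
  fun β x => c (Fin.cons (finProdFinEquiv.symm x).1 β) (finProdFinEquiv.symm x).2

theorem sum_cp (n k D : ℕ) (c : (Fin (n + 1) → Fin (D + 1)) → Fin k → ℤ)
    (θ : Fin k → ℂ) (t0 : ℕ) (β : Fin n → Fin (D + 1)) :
    ∑ x, (cp n k D c β x : ℂ) * thp k D θ t0 x =
      ∑ j : Fin (D + 1), (∑ i, (c (Fin.cons j β) i : ℂ) * θ i) *
        (Real.log t0 : ℂ) ^ (j : ℕ) := by
  rw [← finProdFinEquiv.sum_comp, Fintype.sum_prod_type]
  refine Finset.sum_congr rfl fun j _ => ?_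
  rw [Finset.sum_mul]
  refine Finset.sum_congr rfl fun i _ => ?_
  simp only [cp, thp, Equiv.symm_apply_apply]
  ring

theorem sum_split (n k D : ℕ) (c : (Fin (n + 1) → Fin (D + 1)) → Fin k → ℤ)
    (θ : Fin k → ℂ) (t : Fin (n + 1) → ℕ) :
    ∑ β : Fin (n + 1) → Fin (D + 1), (∑ i, (c β i : ℂ) * θ i) *
        ∏ l, (Real.log (t l) : ℂ) ^ (β l : ℕ) =
      ∑ β : Fin n → Fin (D + 1), (∑ x, (cp n k D c β x : ℂ) * thp k D θ (t 0) x) *
        ∏ l, (Real.log ((Fin.tail t) l) : ℂ) ^ (β l : ℕ) := by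
  rw [← (Fin.consEquiv (fun _ : Fin (n + 1) => Fin (D + 1))).sum_comp, Fintype.sum_prod_type,
    Finset.sum_comm]
  refine Finset.sum_congr rfl fun β _ => ?_
  rw [sum_cp, Finset.sum_mul]
  refine Finset.sum_congr rfl fun j _ => ?_
  have hce : (Fin.consEquiv (fun _ : Fin (n + 1) => Fin (D + 1))) (j, β) =
      (Fin.cons j β : Fin (n + 1) → Fin (D + 1)) := rfl
  rw [Fin.prod_univ_succ, hce]
  simp only [Fin.cons_zero, Fin.cons_succ, Fin.tail]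
  ring

theorem exc_cases (n k D : ℕ) (θ : Fin k → ℂ) (H : ℝ) (t : Fin (n + 1) → ℕ)
    (ht : t ∈ excMulti (n + 1) k D θ H) :
    t 0 ∈ excOne k D θ H ∨
      Fin.tail t ∈ excMulti n ((D + 1) * k) D (thp k D θ (t 0)) H := by
  obtain ⟨c, hc, ⟨β, hβ⟩, hs⟩ := ht
  by_cases hQ : ∀ β' : Fin n → Fin (D + 1), ∑ x, (cp n k D c β' x : ℂ) * thp k D θ (t 0) x = 0
  · left
    refine ⟨fun j i => c (Fin.cons j (Fin.tail β)) i, fun j i => hc _ _, ⟨β 0, ?_⟩, ?_⟩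
    · have hcs : (Fin.cons (β 0) (Fin.tail β) : Fin (n + 1) → Fin (D + 1)) = β :=
        Fin.cons_self_tail β
      change ∑ i, (c (Fin.cons (β 0) (Fin.tail β)) i : ℂ) * θ i ≠ 0
      rw [hcs]
      exact hβ
    · have := hQ (Fin.tail β)
      rw [sum_cp] at this
      exact this
  · right
    push Not at hQ
    obtain ⟨β', hβ'⟩ := hQ
    refine ⟨cp n k D c, fun β x => hc _ _, ⟨β', hβ'⟩, ?_⟩
    rw [sum_split] at hs
    exact hs

theorem ncard_pi (n T : ℕ) :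
    (Set.pi Set.univ (fun _ : Fin n => Set.Icc 1 T)).ncard = T ^ n := by
  have h : (Set.pi Set.univ (fun _ : Fin n => Set.Icc 1 T)) =
      ((Fintype.piFinset (fun _ : Fin n => Finset.Icc 1 T) : Finset (Fin n → ℕ)) :
        Set (Fin n → ℕ)) := by
    ext x
    simp
  rw [h, Set.ncard_coe_finset, Fintype.card_piFinset]
  simp

theorem finite_pi (n T : ℕ) :
    (Set.pi Set.univ (fun _ : Fin n => Set.Icc 1 T)).Finite :=
  Set.Finite.pi fun _ => Set.finite_Icc 1 T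

theorem multi_zero (k D : ℕ) : Multi 0 k D := by
  refine ⟨1, one_pos, le_refl 1, 0, 1, one_pos, fun θ T H hT hH => ?_⟩
  have h : excMulti 0 k D θ H = ∅ := by
    ext t
    simp only [Set.mem_empty_iff_false, iff_false]
    rintro ⟨c, hc, ⟨β, hβ⟩, hs⟩
    apply hβ
    rw [Fintype.sum_eq_single β (fun b hb => absurd (Subsingleton.elim b β) hb)] at hs
    simpa using hs
  rw [h, Set.empty_inter, Set.ncard_empty]
  have h1 : (0 : ℝ) ≤ (T : ℝ) ^ (((0 : ℕ) : ℝ) - 1) := Real.rpow_nonneg (Nat.cast_nonneg T) _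
  simpa using h1

theorem count_le (n k D : ℕ) (θ : Fin k → ℂ) (H : ℝ) (T : ℕ) (M : ℝ)
    (hM : ∀ t0 : ℕ, ((excMulti n ((D + 1) * k) D (thp k D θ t0) H ∩
      Set.pi Set.univ (fun _ => Set.Icc 1 T)).ncard : ℝ) ≤ M) :
    ((excMulti (n + 1) k D θ H ∩ Set.pi Set.univ (fun _ => Set.Icc 1 T)).ncard : ℝ) ≤
      ((excOne k D θ H ∩ Set.Icc 1 T).ncard : ℝ) * (T : ℝ) ^ n + T * M := by
  classical
  set A : Set ℕ := excOne k D θ H ∩ Set.Icc 1 T with hA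
  set B : Set (Fin n → ℕ) := Set.pi Set.univ (fun _ => Set.Icc 1 T) with hB
  set E : ℕ → Set (Fin n → ℕ) := fun t0 =>
    excMulti n ((D + 1) * k) D (thp k D θ t0) H ∩ B with hE
  have hAf : A.Finite := (Set.finite_Icc 1 T).subset Set.inter_subset_right
  have hBf : B.Finite := finite_pi n T
  have hEf : ∀ t0, (E t0).Finite := fun t0 => hBf.subset Set.inter_subset_right
  let cn : ℕ → (Fin n → ℕ) → (Fin (n + 1) → ℕ) := fun a b => Fin.cons a b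
  let U1 : Set (Fin (n + 1) → ℕ) := (fun p : ℕ × (Fin n → ℕ) => cn p.1 p.2) '' (A ×ˢ B)
  let U2 : Set (Fin (n + 1) → ℕ) := ⋃ a ∈ Finset.Icc 1 T, (cn a) '' (E a)
  have hU1f : U1.Finite := (hAf.prod hBf).image _
  have hU2f : U2.Finite := Set.Finite.biUnion (Finset.finite_toSet _) fun a _ => (hEf a).image _
  have hsub : excMulti (n + 1) k D θ H ∩ Set.pi Set.univ (fun _ => Set.Icc 1 T) ⊆ U1 ∪ U2 := by
    rintro t ⟨ht, htp⟩
    have h0 : t 0 ∈ Set.Icc 1 T := htp 0 (Set.mem_univ _)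
    have htl : Fin.tail t ∈ B := fun i _ => htp i.succ (Set.mem_univ _)
    rcases exc_cases n k D θ H t ht with h | h
    · left
      exact ⟨(t 0, Fin.tail t), ⟨⟨h, h0⟩, htl⟩, Fin.cons_self_tail t⟩
    · right
      simp only [U2, Set.mem_iUnion]
      exact ⟨t 0, Finset.mem_Icc.2 h0, Fin.tail t, ⟨h, htl⟩, Fin.cons_self_tail t⟩
  have hc1 : U1.ncard ≤ A.ncard * T ^ n := by
    calc U1.ncard ≤ (A ×ˢ B).ncard := Set.ncard_image_le (hAf.prod hBf)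
      _ = A.ncard * B.ncard := Set.ncard_prod
      _ = A.ncard * T ^ n := by rw [hB, ncard_pi]
  have hc2 : U2.ncard ≤ ∑ a ∈ Finset.Icc 1 T, (E a).ncard := by
    calc U2.ncard ≤ ∑ a ∈ Finset.Icc 1 T, ((cn a) '' (E a)).ncard :=
          Finset.set_ncard_biUnion_le _ _
      _ ≤ ∑ a ∈ Finset.Icc 1 T, (E a).ncard :=
          Finset.sum_le_sum fun a _ => Set.ncard_image_le (hEf a)
  have hc3 : (∑ a ∈ Finset.Icc 1 T, ((E a).ncard : ℝ)) ≤ T * M := by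
    calc (∑ a ∈ Finset.Icc 1 T, ((E a).ncard : ℝ)) ≤ ∑ a ∈ Finset.Icc 1 T, M :=
          Finset.sum_le_sum fun a _ => hM a
      _ = T * M := by simp
  have hc4 : (excMulti (n + 1) k D θ H ∩ Set.pi Set.univ (fun _ => Set.Icc 1 T)).ncard ≤
      U1.ncard + U2.ncard :=
    (Set.ncard_le_ncard hsub (hU1f.union hU2f)).trans (Set.ncard_union_le _ _)
  calc ((excMulti (n + 1) k D θ H ∩ Set.pi Set.univ (fun _ => Set.Icc 1 T)).ncard : ℝ)
      ≤ (U1.ncard : ℝ) + (U2.ncard : ℝ) := by exact_mod_cast hc4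
    _ ≤ (A.ncard : ℝ) * (T : ℝ) ^ n + ∑ a ∈ Finset.Icc 1 T, ((E a).ncard : ℝ) := by
        have h1 : (U1.ncard : ℝ) ≤ (A.ncard : ℝ) * (T : ℝ) ^ n := by exact_mod_cast hc1
        have h2 : (U2.ncard : ℝ) ≤ ∑ a ∈ Finset.Icc 1 T, ((E a).ncard : ℝ) := by
          exact_mod_cast hc2
        linarith
    _ ≤ (A.ncard : ℝ) * (T : ℝ) ^ n + T * M := by linarith

theorem multi_succ (hone : ∀ k D : ℕ, One k D) (n : ℕ) (ih : ∀ k D : ℕ, Multi n k D)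
    (k D : ℕ) : Multi (n + 1) k D := by
  obtain ⟨κ1, hκ1, hκ1', e1, K1, hK1, h1⟩ := hone k D
  obtain ⟨κ2, hκ2, hκ2', e2, K2, hK2, h2⟩ := ih ((D + 1) * k) D
  refine ⟨min κ1 κ2, lt_min hκ1 hκ2, (min_le_left _ _).trans hκ1', max e1 e2, K1 + K2,
    add_pos hK1 hK2, fun θ T H hT hH => ?_⟩
  have hT1 : (1 : ℝ) ≤ (T : ℝ) := by exact_mod_cast hT
  have hT0 : (0 : ℝ) < (T : ℝ) := by linarith
  have hL : (1 : ℝ) ≤ 1 + Real.log H := by
    have := Real.log_nonneg hH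
    linarith
  refine (count_le n k D θ H T _ (fun t0 => h2 (thp k D θ t0) T H hT hH)).trans ?_
  have ha := h1 θ T H hT hH
  have e1' : (1 + Real.log H) ^ e1 ≤ (1 + Real.log H) ^ (max e1 e2) :=
    pow_le_pow_right₀ hL (le_max_left _ _)
  have e2' : (1 + Real.log H) ^ e2 ≤ (1 + Real.log H) ^ (max e1 e2) :=
    pow_le_pow_right₀ hL (le_max_right _ _)
  have hE0 : (0 : ℝ) ≤ (1 + Real.log H) ^ (max e1 e2) := by positivity
  set L := (1 + Real.log H) ^ (max e1 e2) with hLdef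
  have p1 : (T : ℝ) ^ (1 - κ1) * (T : ℝ) ^ n ≤ (T : ℝ) ^ (((n + 1 : ℕ) : ℝ) - min κ1 κ2) := by
    rw [← Real.rpow_natCast, ← Real.rpow_add hT0]
    apply Real.rpow_le_rpow_of_exponent_le hT1
    push_cast
    have := min_le_left κ1 κ2
    linarith
  have p2 : (T : ℝ) * (T : ℝ) ^ ((n : ℝ) - κ2) ≤ (T : ℝ) ^ (((n + 1 : ℕ) : ℝ) - min κ1 κ2) := by
    nth_rewrite 1 [← Real.rpow_one (T : ℝ)]
    rw [← Real.rpow_add hT0]
    apply Real.rpow_le_rpow_of_exponent_le hT1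
    push_cast
    have := min_le_right κ1 κ2
    linarith
  have q1 : ((excOne k D θ H ∩ Set.Icc 1 T).ncard : ℝ) * (T : ℝ) ^ n ≤
      K1 * (T : ℝ) ^ (((n + 1 : ℕ) : ℝ) - min κ1 κ2) * L := by
    calc ((excOne k D θ H ∩ Set.Icc 1 T).ncard : ℝ) * (T : ℝ) ^ n
        ≤ (K1 * (T : ℝ) ^ (1 - κ1) * (1 + Real.log H) ^ e1) * (T : ℝ) ^ n := by gcongr
      _ = K1 * ((T : ℝ) ^ (1 - κ1) * (T : ℝ) ^ n) * (1 + Real.log H) ^ e1 := by ring
      _ ≤ K1 * (T : ℝ) ^ (((n + 1 : ℕ) : ℝ) - min κ1 κ2) * L := by gcongr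
  have q2 : (T : ℝ) * (K2 * (T : ℝ) ^ ((n : ℝ) - κ2) * (1 + Real.log H) ^ e2) ≤
      K2 * (T : ℝ) ^ (((n + 1 : ℕ) : ℝ) - min κ1 κ2) * L := by
    calc (T : ℝ) * (K2 * (T : ℝ) ^ ((n : ℝ) - κ2) * (1 + Real.log H) ^ e2)
        = K2 * ((T : ℝ) * (T : ℝ) ^ ((n : ℝ) - κ2)) * (1 + Real.log H) ^ e2 := by ring
      _ ≤ K2 * (T : ℝ) ^ (((n + 1 : ℕ) : ℝ) - min κ1 κ2) * L := by gcongr
  calc _ ≤ K1 * (T : ℝ) ^ (((n + 1 : ℕ) : ℝ) - min κ1 κ2) * L +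
        K2 * (T : ℝ) ^ (((n + 1 : ℕ) : ℝ) - min κ1 κ2) * L := add_le_add q1 q2
    _ = (K1 + K2) * (T : ℝ) ^ (((n + 1 : ℕ) : ℝ) - min κ1 κ2) * L := by ring

theorem tMULTI : T_MULTI := by
  intro hone n
  induction n with
  | zero => exact multi_zero
  | succ n ih => exact multi_succ hone n ih

end KAA
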