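import Pool.Agent.KAA.Core
import Pool.Agent.KAA.MULTI

namespace KAA
open Finset Polynomial

/-- The coefficient family of `θ_i (y + log x)^j'`. -/
noncomputable def PsiOne (k D : ℕ) (θ : Fin k → ℂ) (x : ℝ) :
    Fin ((D + 1) * k) → Fin (D + 1) → Polynomial ℂ :=
  fun p j => Polynomial.C (θ (finProdFinEquiv.symm p).2 *
    ((((finProdFinEquiv.symm p).1 : ℕ).choose (j : ℕ) : ℂ) *
      (Real.log x : ℂ) ^ (((finProdFinEquiv.symm p).1 : ℕ) - (j : ℕ))))

theorem excOne_sub (k D : ℕ) (θ : Fin k → ℂ) (H x : ℝ) (hx : 0 < x) (t : ℕ) (ht : 1 ≤ t)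
    (h : t ∈ excOne k D θ H) : t ∈ excCore ((D + 1) * k) D (PsiOne k D θ x) x H := by
  classical
  obtain ⟨c, hcH, hcne, hcrel⟩ := h
  set a : Fin (D + 1) → ℂ := fun j => ∑ i, (c j i : ℂ) * θ i with ha
  have hb : ∀ j : Fin (D + 1), ∑ p, (c (finProdFinEquiv.symm p).1 (finProdFinEquiv.symm p).2 : ℂ) *
      (PsiOne k D θ x p j).eval (t : ℂ) =
      ∑ j' : Fin (D + 1), a j' * (((j' : ℕ).choose (j : ℕ) : ℂ) *
        (Real.log x : ℂ) ^ ((j' : ℕ) - (j : ℕ))) := by
    intro j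
    rw [← finProdFinEquiv.sum_comp, Fintype.sum_prod_type]
    refine Finset.sum_congr rfl fun j' _ => ?_
    simp only [ha, Finset.sum_mul, PsiOne, Equiv.symm_apply_apply, Polynomial.eval_C]
    refine Finset.sum_congr rfl fun i _ => ?_
    ring
  refine ⟨fun p => c (finProdFinEquiv.symm p).1 (finProdFinEquiv.symm p).2,
    fun p => hcH _ _, ?_, ?_⟩
  · -- top coefficient
    obtain ⟨j0, hj0, hmax⟩ := Finset.exists_max_image
      (univ.filter (fun j : Fin (D + 1) => a j ≠ 0)) (fun j => (j : ℕ))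
      (by obtain ⟨j, hj⟩ := hcne; exact ⟨j, by simp [ha, hj]⟩)
    refine ⟨j0, ?_⟩
    rw [hb j0, Finset.sum_eq_single j0]
    · simp only [mem_filter, mem_univ, true_and] at hj0
      simpa using hj0
    · intro j _ hj
      by_cases haj : a j = 0
      · simp [haj]
      · have h1 := hmax j (by simp [haj])
        have h2 : (j : ℕ) < (j0 : ℕ) := by
          have : (j : ℕ) ≠ (j0 : ℕ) := fun h => hj (Fin.ext h)
          omega
        rw [Nat.choose_eq_zero_of_lt h2]; simp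
    · simp
  · simp only [hb]
    have hlog : (Real.log ((t : ℝ) / x) : ℂ) = (Real.log t : ℂ) - (Real.log x : ℂ) := by
      rw [Real.log_div (by positivity) hx.ne']; push_cast; ring
    have h1 : ∀ j' : Fin (D + 1), ∑ j : Fin (D + 1), (((j' : ℕ).choose (j : ℕ) : ℂ) *
        (Real.log x : ℂ) ^ ((j' : ℕ) - (j : ℕ))) * (Real.log ((t : ℝ) / x) : ℂ) ^ (j : ℕ) =
        (Real.log t : ℂ) ^ (j' : ℕ) := by
      intro j'
      have h2 : (Real.log t : ℂ) = (Real.log ((t : ℝ) / x) : ℂ) + (Real.log x : ℂ) := by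
        rw [hlog]; ring
      rw [h2, add_pow]
      rw [Fin.sum_univ_eq_sum_range (fun j => (((j' : ℕ).choose j : ℂ) *
        (Real.log x : ℂ) ^ ((j' : ℕ) - j)) * (Real.log ((t : ℝ) / x) : ℂ) ^ j) (D + 1)]
      have h3 : range ((j' : ℕ) + 1) ⊆ range (D + 1) := by
        apply Finset.range_mono
        have := j'.2
        omega
      rw [← Finset.sum_subset h3]
      · refine Finset.sum_congr rfl fun j _ => ?_
        ring
      · intro j _ hj
        simp only [mem_range, not_lt] at hj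
        rw [Nat.choose_eq_zero_of_lt (by omega)]; simp
    calc ∑ j : Fin (D + 1), (∑ j' : Fin (D + 1), a j' * (((j' : ℕ).choose (j : ℕ) : ℂ) *
        (Real.log x : ℂ) ^ ((j' : ℕ) - (j : ℕ)))) * (Real.log ((t : ℝ) / x) : ℂ) ^ (j : ℕ)
        = ∑ j' : Fin (D + 1), a j' * ∑ j : Fin (D + 1), (((j' : ℕ).choose (j : ℕ) : ℂ) *
        (Real.log x : ℂ) ^ ((j' : ℕ) - (j : ℕ))) * (Real.log ((t : ℝ) / x) : ℂ) ^ (j : ℕ) := by
          simp only [Finset.sum_mul, Finset.mul_sum]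
          rw [Finset.sum_comm]
          refine Finset.sum_congr rfl fun j' _ => Finset.sum_congr rfl fun j _ => ?_
          ring
      _ = ∑ j' : Fin (D + 1), a j' * (Real.log t : ℂ) ^ (j' : ℕ) := by
          simp only [h1]
      _ = 0 := hcrel

theorem tONE : T_ONE := by
  intro k D
  classical
  set m : ℕ := (D + 1) * k with hm
  obtain ⟨C, hC, e, hcore⟩ := core D m m le_rfl
  set κ : ℝ := 1 / (8 * ((m : ℝ) + 1)) with hκ
  have hκ0 : 0 < κ := by positivity
  have hκ8 : κ ≤ 1 / 8 := by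
    have : (0 : ℝ) ≤ m := Nat.cast_nonneg _
    rw [hκ]; apply one_div_le_one_div_of_le (by norm_num); linarith
  refine ⟨κ, hκ0, by linarith, e, 17 + 9 * C, by positivity, ?_⟩
  intro θ T H hT hH
  set h : ℝ := Real.log H with hh
  have hh0 : 0 ≤ h := Real.log_nonneg hH
  have hT1 : (1 : ℝ) ≤ T := by exact_mod_cast hT
  have hT0 : (0 : ℝ) < T := by linarith
  have hTp : 1 ≤ (T : ℝ) ^ (1 - κ) := Real.one_le_rpow hT1 (by linarith)
  have hhe : 1 ≤ (1 + h) ^ e := one_le_pow₀ (by linarith)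
  have hprod : 1 ≤ (T : ℝ) ^ (1 - κ) * (1 + h) ^ e := one_le_mul_of_one_le_of_one_le hTp hhe
  have hIcc : (Set.Icc 1 T).Finite := Set.finite_Icc 1 T
  set E : Set ℕ := excOne k D θ H ∩ Set.Icc 1 T with hE
  have hEfin : E.Finite := hIcc.subset Set.inter_subset_right
  have hEcard : E.ncard ≤ T := by
    calc E.ncard ≤ (Set.Icc 1 T).ncard := Set.ncard_le_ncard Set.inter_subset_right hIcc
      _ = T := by rw [← Finset.coe_Icc, Set.ncard_coe_finset]; simp
  by_cases hT16 : T < 16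
  · have h1 : (E.ncard : ℝ) ≤ 16 := by
      have : E.ncard ≤ 16 := by omega
      exact_mod_cast this
    calc (E.ncard : ℝ) ≤ 16 * 1 := by linarith
      _ ≤ (17 + 9 * C) * ((T : ℝ) ^ (1 - κ) * (1 + h) ^ e) := by
        apply mul_le_mul (by linarith) hprod (by norm_num) (by positivity)
      _ = _ := by ring
  push Not at hT16
  have hT16r : (16 : ℝ) ≤ T := by exact_mod_cast hT16
  set w : ℝ := (T : ℝ) ^ κ / 8 with hw
  have hTk0 : 0 < (T : ℝ) ^ κ := Real.rpow_pos_of_pos hT0 _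
  have hw0 : 0 < w := by positivity
  have hwle : (T : ℝ) ^ κ ≤ (T : ℝ) ^ (1 / 2 : ℝ) :=
    Real.rpow_le_rpow_of_exponent_le hT1 (by linarith)
  have hwle2 : w ≤ (T : ℝ) ^ (1 / 2 : ℝ) / 8 := by rw [hw]; gcongr
  have hhalfT : (T : ℝ) ^ (1 / 2 : ℝ) ≤ T := by
    calc (T : ℝ) ^ (1 / 2 : ℝ) ≤ (T : ℝ) ^ (1 : ℝ) :=
          Real.rpow_le_rpow_of_exponent_le hT1 (by norm_num)
      _ = T := Real.rpow_one _
  have hhalf0 : 0 < (T : ℝ) ^ (1 / 2 : ℝ) := Real.rpow_pos_of_pos hT0 _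
  -- split
  set E1 : Finset ℕ := (Finset.Icc 1 T).filter (fun t => (t : ℝ) ≤ (T : ℝ) ^ (1 / 2 : ℝ)) with hE1
  set E2 : Finset ℕ := hEfin.toFinset.filter (fun t => (T : ℝ) ^ (1 / 2 : ℝ) < (t : ℝ)) with hE2
  have hEsub : E ⊆ (E1 ∪ E2 : Finset ℕ) := by
    intro t ht
    simp only [Finset.coe_union, Set.mem_union, Finset.mem_coe, hE1, hE2, Finset.mem_filter,
      Set.Finite.mem_toFinset]
    rcases le_or_gt (t : ℝ) ((T : ℝ) ^ (1 / 2 : ℝ)) with h1 | h1
    · left; exact ⟨Finset.mem_Icc.mpr ht.2, h1⟩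
    · right; exact ⟨ht, h1⟩
  have hE1card : (E1.card : ℝ) ≤ (T : ℝ) ^ (1 / 2 : ℝ) := by
    have h1 : E1 ⊆ Finset.Icc 1 (Nat.floor ((T : ℝ) ^ (1 / 2 : ℝ))) := by
      intro t ht
      simp only [hE1, Finset.mem_filter, Finset.mem_Icc] at ht ⊢
      exact ⟨ht.1.1, Nat.le_floor ht.2⟩
    have h2 := Finset.card_le_card h1
    rw [Nat.card_Icc, Nat.add_sub_cancel] at h2
    calc (E1.card : ℝ) ≤ (Nat.floor ((T : ℝ) ^ (1 / 2 : ℝ)) : ℝ) := by exact_mod_cast h2
      _ ≤ _ := Nat.floor_le hhalf0.le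
  set n : ℕ := Nat.floor (C * (1 + h) ^ e) with hn
  have hE2card : E2.card ≤ n * (E2.image (fun t : ℕ => Nat.floor ((t : ℝ) / w))).card := by
    apply Finset.card_le_mul_card_image
    intro q hq
    obtain ⟨t1, ht1, ht1q⟩ := Finset.mem_image.mp hq
    set x : ℝ := ((q : ℝ) + 1 / 2) * w with hx
    have hwin : ∀ t ∈ E2, Nat.floor ((t : ℝ) / w) = q → |(t : ℝ) - x| ≤ w / 2 := by
      intro t _ htq
      have h1 : (q : ℝ) ≤ (t : ℝ) / w := by
        rw [← htq]; exact Nat.floor_le (by positivity)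
      have h2 : (t : ℝ) / w < (q : ℝ) + 1 := by
        rw [← htq]; exact Nat.lt_floor_add_one _
      rw [le_div_iff₀ hw0] at h1
      rw [div_lt_iff₀ hw0] at h2
      rw [abs_le, hx]
      constructor <;> linarith
    have ht1' := hwin t1 ht1 ht1q
    rw [abs_le] at ht1'
    simp only [hE2, Finset.mem_filter, Set.Finite.mem_toFinset] at ht1
    have ht1T : (t1 : ℝ) ≤ T := by exact_mod_cast ht1.1.2.2
    have hx1 : (T : ℝ) ^ (1 / 2 : ℝ) / 2 ≤ x := by linarith [ht1'.2, ht1.2]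
    have hx2 : x ≤ 2 * T := by linarith [ht1'.1]
    have hx0 : 0 < x := by linarith
    have hc := hcore 0 H T x hH hT16r hx1 hx2 (PsiOne k D θ x) (by
      intro i j
      exact (Polynomial.natDegree_C _).le)
    have hsub : ((E2.filter (fun t : ℕ => Nat.floor ((t : ℝ) / w) = q) : Finset ℕ) : Set ℕ) ⊆
        excCore m D (PsiOne k D θ x) x H ∩ {t : ℕ | |(t : ℝ) - x| ≤ w} := by
      intro t ht
      simp only [Finset.coe_filter] at ht
      have ht2 : t ∈ E2 := ht.1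
      have ht3 := hwin t ht2 ht.2
      refine ⟨?_, ?_⟩
      · simp only [hE2, Finset.mem_filter, Set.Finite.mem_toFinset] at ht2
        exact excOne_sub k D θ H x hx0 t ht2.1.2.1 ht2.1.1
      · show |(t : ℝ) - x| ≤ w
        linarith
    have hfin := (finite_window x w).subset (Set.inter_subset_right :
      excCore m D (PsiOne k D θ x) x H ∩ {t : ℕ | |(t : ℝ) - x| ≤ w} ⊆ _)
    have hcard := Set.ncard_le_ncard hsub hfin
    rw [Set.ncard_coe_finset] at hcard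
    apply Nat.le_floor
    calc ((E2.filter (fun t : ℕ => Nat.floor ((t : ℝ) / w) = q)).card : ℝ)
        ≤ ((excCore m D (PsiOne k D θ x) x H ∩ {t : ℕ | |(t : ℝ) - x| ≤ w}).ncard : ℝ) := by
          exact_mod_cast hcard
      _ ≤ C * (1 + (0 : ℕ) + Real.log H) ^ e := hc
      _ = C * (1 + h) ^ e := by simp [hh]
  have himg : ((E2.image (fun t : ℕ => Nat.floor ((t : ℝ) / w))).card : ℝ) ≤
      9 * (T : ℝ) ^ (1 - κ) := by
    have h1 : E2.image (fun t : ℕ => Nat.floor ((t : ℝ) / w)) ⊆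
        Finset.range (Nat.floor ((T : ℝ) / w) + 1) := by
      intro q hq
      obtain ⟨t, ht, rfl⟩ := Finset.mem_image.mp hq
      simp only [hE2, Finset.mem_filter, Set.Finite.mem_toFinset] at ht
      have htT : (t : ℝ) ≤ T := by exact_mod_cast ht.1.2.2
      rw [Finset.mem_range, Nat.lt_succ_iff]
      apply Nat.floor_le_floor
      gcongr
    have h2 := Finset.card_le_card h1
    rw [Finset.card_range] at h2
    have h3 : (T : ℝ) / w = 8 * (T : ℝ) ^ (1 - κ) := by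
      rw [hw, Real.rpow_sub hT0, Real.rpow_one]; field_simp
    calc ((E2.image (fun t : ℕ => Nat.floor ((t : ℝ) / w))).card : ℝ)
        ≤ ((Nat.floor ((T : ℝ) / w) + 1 : ℕ) : ℝ) := by exact_mod_cast h2
      _ ≤ (T : ℝ) / w + 1 := by
        push_cast
        have := Nat.floor_le (by positivity : 0 ≤ (T : ℝ) / w)
        linarith
      _ ≤ 9 * (T : ℝ) ^ (1 - κ) := by rw [h3]; linarith
  have hn' : (n : ℝ) ≤ C * (1 + h) ^ e := Nat.floor_le (by positivity)
  have hE2r : (E2.card : ℝ) ≤ (C * (1 + h) ^ e) * (9 * (T : ℝ) ^ (1 - κ)) := by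
    calc (E2.card : ℝ) ≤ (n * (E2.image (fun t : ℕ => Nat.floor ((t : ℝ) / w))).card : ℕ) := by
          exact_mod_cast hE2card
      _ = (n : ℝ) * ((E2.image (fun t : ℕ => Nat.floor ((t : ℝ) / w))).card : ℝ) := by push_cast; ring
      _ ≤ _ := mul_le_mul hn' himg (Nat.cast_nonneg _) (by positivity)
  have hEr : (E.ncard : ℝ) ≤ E1.card + E2.card := by
    have h1 : E.ncard ≤ (E1 ∪ E2).card := by
      rw [← Set.ncard_coe_finset]
      exact Set.ncard_le_ncard hEsub (Finset.finite_toSet _)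
    have h2 := h1.trans (Finset.card_union_le E1 E2)
    exact_mod_cast h2
  have hhalf1 : (T : ℝ) ^ (1 / 2 : ℝ) ≤ (T : ℝ) ^ (1 - κ) :=
    Real.rpow_le_rpow_of_exponent_le hT1 (by linarith)
  have hTe : (T : ℝ) ^ (1 - κ) ≤ (T : ℝ) ^ (1 - κ) * (1 + h) ^ e :=
    le_mul_of_one_le_right (by positivity) hhe
  calc (E.ncard : ℝ) ≤ (T : ℝ) ^ (1 - κ) * (1 + h) ^ e +
        (C * (1 + h) ^ e) * (9 * (T : ℝ) ^ (1 - κ)) := by linarith
    _ = (1 + 9 * C) * ((T : ℝ) ^ (1 - κ) * (1 + h) ^ e) := by ring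
    _ ≤ (17 + 9 * C) * ((T : ℝ) ^ (1 - κ) * (1 + h) ^ e) := by gcongr; norm_num
    _ = _ := by ring

end KAA
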