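import Pool.Agent.KAA.Defs

/-!
# Lindemann: transcendence of `2 π i`
-/

namespace KAA

namespace PI

open Polynomial

/-- the multiset of the sums of the submultisets -/
noncomputable def ss {K : Type} [AddCommMonoid K] (R : Multiset K) : Multiset K :=
  R.powerset.map Multiset.sum

theorem ss_zero {K : Type} [AddCommMonoid K] : ss (0 : Multiset K) = {0} := by
  simp [ss]

theorem ss_cons {K : Type} [AddCommMonoid K] (a : K) (R : Multiset K) :
    ss (a ::ₘ R) = ss R + (ss R).map (fun x => a + x) := by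
  simp [ss, Multiset.map_map]

theorem ss_map {K K' : Type} [AddCommMonoid K] [AddCommMonoid K'] (f : K →+ K')
    (R : Multiset K) : (ss R).map f = ss (R.map f) := by
  induction R using Multiset.induction_on with
  | empty => simp [ss_zero]
  | cons a R ih =>
    rw [ss_cons, Multiset.map_cons, ss_cons, ← ih]
    simp [Multiset.map_map]

theorem zero_mem_ss {K : Type} [AddCommMonoid K] (R : Multiset K) : (0 : K) ∈ ss R := by
  induction R using Multiset.induction_on with
  | empty => simp [ss_zero]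
  | cons a R ih => rw [ss_cons]; exact Multiset.mem_add.2 (Or.inl ih)

theorem prod_exp (R : Multiset ℂ) :
    (R.map (fun r => Complex.exp r + 1)).prod = ((ss R).map Complex.exp).sum := by
  induction R using Multiset.induction_on with
  | empty => simp [ss_zero]
  | cons a R ih =>
    rw [ss_cons, Multiset.map_cons, Multiset.prod_cons, ih, Multiset.map_add, Multiset.sum_add,
      Multiset.map_map]
    simp only [Function.comp_def, Complex.exp_add]
    rw [Multiset.sum_map_mul_left]
    ring

theorem ss_pred {K : Type} [AddCommMonoid K] (Q : K → Prop) (h0 : Q 0)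
    (ha : ∀ x y, Q x → Q y → Q (x + y)) (R : Multiset K) (hR : ∀ x ∈ R, Q x) :
    ∀ x ∈ ss R, Q x := by
  induction R using Multiset.induction_on with
  | empty => intro x hx; rw [ss_zero, Multiset.mem_singleton] at hx; rw [hx]; exact h0
  | cons a R ih =>
    have ih' := ih (fun x hx => hR x (Multiset.mem_cons_of_mem hx))
    intro x hx
    rw [ss_cons, Multiset.mem_add, Multiset.mem_map] at hx
    rcases hx with hx | ⟨y, hy, rfl⟩
    · exact ih' x hx
    · exact ha _ _ (hR a (Multiset.mem_cons_self a R)) (ih' y hy)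

/-- `a ^ M • g x` is integral if `a • x` is integral and `deg g ≤ M` -/
theorem integral_eval {L : Type} [Field L] [Algebra ℚ L] (a : ℤ) (x : L) (g : ℤ[X]) (M : ℕ)
    (hg : g.natDegree ≤ M) (hx : IsIntegral ℤ ((a : L) * x)) :
    IsIntegral ℤ ((a : L) ^ M * aeval x g) := by
  rw [aeval_eq_sum_range' (n := M + 1) (by omega), Finset.mul_sum]
  apply IsIntegral.sum
  intro i hi
  rw [Finset.mem_range] at hi
  have h1 : (a : L) ^ M * (g.coeff i • x ^ i) =
      ((g.coeff i * a ^ (M - i) : ℤ) : L) * ((a : L) * x) ^ i := by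
    rw [zsmul_eq_mul]
    push_cast
    rw [mul_pow]
    have h2 : (a : L) ^ M = (a : L) ^ (M - i) * (a : L) ^ i := by
      rw [← pow_add]; congr 1; omega
    rw [h2]; ring
  rw [h1]
  refine IsIntegral.mul ?_ (hx.pow i)
  exact isIntegral_algebraMap (R := ℤ) (A := L) (x := g.coeff i * a ^ (M - i))

theorem aroots_map_hom {A B : Type} [Field A] [CommRing B] [IsDomain B] (p : ℤ[X])
    (hf : (p.map (Int.castRingHom A)).Splits) (ψ : A →+* B) :
    (p.map (Int.castRingHom A)).roots.map ψ = (p.map (Int.castRingHom B)).roots := by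
  rw [← hf.roots_map_of_injective ψ.injective, Polynomial.map_map]
  congr 2
  exact RingHom.ext_int _ _

theorem exists_field {K : Type} [Field K] [CharZero K] [Algebra K ℂ] (q : K[X]) :
    ∃ (L : Type) (_ : Field L) (_ : Algebra K L),
    IsGalois K L ∧ FiniteDimensional K L ∧ (q.map (algebraMap K L)).Splits ∧
    Nonempty (L →ₐ[K] ℂ) := by
  refine ⟨q.SplittingField, inferInstance, inferInstance, ?_, inferInstance,
    SplittingField.splits q, ⟨SplittingField.lift q (IsAlgClosed.splits _)⟩⟩
  have : Normal K q.SplittingField := Normal.of_isSplittingField q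
  exact ⟨⟩

theorem filter_map_hom {A B : Type} [Field A] [Field B] [DecidableEq A] [DecidableEq B]
    (R : Multiset A) (ψ : A →+* B) :
    ((ss R).filter (fun x => x ≠ 0)).map ψ = (ss (R.map ψ)).filter (fun x => x ≠ 0) := by
  have h := ss_map (ψ : A →+ B) R
  have h2 : ss (R.map ψ) = (ss R).map ψ := h.symm
  rw [h2, Multiset.filter_map]
  congr 1
  apply Multiset.filter_congr
  intro x _
  simp

theorem sum_map_hom {A B : Type} [Field A] [Field B] [DecidableEq A] [DecidableEq B]
    (R : Multiset A) (ψ : A →+* B) (g : ℤ[X]) :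
    ψ (((ss R).filter (fun x => x ≠ 0)).map (fun x => aeval x g)).sum =
      (((ss (R.map ψ)).filter (fun x => x ≠ 0)).map (fun x => aeval x g)).sum := by
  rw [map_multiset_sum, ← filter_map_hom, Multiset.map_map, Multiset.map_map]
  congr 1
  apply Multiset.map_congr rfl
  intro x _
  simp only [Function.comp_apply]
  have h := Polynomial.aeval_algHom_apply (R := ℤ) (ψ.toIntAlgHom) x g
  simpa using h.symm

/-- The algebraic part: `a ^ M` times the sum of `g` over the nonzero subset sums is an
integer. -/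
theorem rational_aux (p : ℤ[X]) (g : ℤ[X]) (M : ℕ) (hg : g.natDegree ≤ M)
    (dc : DecidableEq ℂ) :
    ∃ z : ℤ, (p.leadingCoeff : ℂ) ^ M *
      (((ss (p.map (Int.castRingHom ℂ)).roots).filter (fun x => x ≠ 0)).map
        (fun x => aeval x g)).sum = z := by
  obtain ⟨L, hL1, hL2, hL3, hL4, hL5, ⟨φ⟩⟩ := exists_field (p.map (Int.castRingHom ℚ))
  have : DecidableEq L := Classical.decEq L
  have : CharZero L := algebraRat.charZero L
  rw [Polynomial.map_map, RingHom.ext_int ((algebraMap ℚ L).comp (Int.castRingHom ℚ))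
    (Int.castRingHom L)] at hL5
  have hRC := aroots_map_hom p hL5 (φ : L →+* ℂ)
  have hC := sum_map_hom (p.map (Int.castRingHom L)).roots (φ : L →+* ℂ) g
  rw [hRC] at hC
  rw [← hC]
  have hσ : ∀ σ : Gal(L/ℚ), σ (((ss (p.map (Int.castRingHom L)).roots).filter
      (fun x => x ≠ 0)).map (fun x => aeval x g)).sum = (((ss (p.map
        (Int.castRingHom L)).roots).filter (fun x => x ≠ 0)).map (fun x => aeval x g)).sum := by
    intro σ
    have h1 := sum_map_hom (p.map (Int.castRingHom L)).roots (σ : L →+* L) g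
    rw [aroots_map_hom p hL5 (σ : L →+* L)] at h1
    exact h1
  obtain ⟨q, hq⟩ := (IsGalois.mem_range_algebraMap_iff_fixed _).2 hσ
  have hint : ∀ x ∈ ss (p.map (Int.castRingHom L)).roots,
      IsIntegral ℤ ((p.leadingCoeff : L) * x) := by
    apply ss_pred (fun x => IsIntegral ℤ ((p.leadingCoeff : L) * x))
    · simpa using isIntegral_zero
    · intro x y hx hy
      rw [mul_add]
      exact hx.add hy
    · intro x hx
      have h1 := (mem_roots'.1 hx).2
      have h2 : aeval x p = 0 := by
        rw [IsRoot.def, eval_map] at h1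
        rw [aeval_def]
        exact h1
      have h3 := isIntegral_leadingCoeff_smul p x h2
      rwa [zsmul_eq_mul] at h3
  have hA : IsIntegral ℤ ((p.leadingCoeff : L) ^ M * (((ss (p.map
      (Int.castRingHom L)).roots).filter (fun x => x ≠ 0)).map (fun x => aeval x g)).sum) := by
    rw [← Multiset.sum_map_mul_left]
    apply IsIntegral.multiset_sum
    intro y hy
    rw [Multiset.mem_map] at hy
    obtain ⟨x, hx, rfl⟩ := hy
    exact integral_eval _ x g M hg (hint x (Multiset.mem_filter.1 hx).1)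
  rw [← hq] at hA ⊢
  have hA2 : IsIntegral ℤ ((p.leadingCoeff : ℚ) ^ M * q) := by
    have h1 : (p.leadingCoeff : L) ^ M * algebraMap ℚ L q =
        algebraMap ℚ L ((p.leadingCoeff : ℚ) ^ M * q) := by
      rw [map_mul, map_pow, map_intCast]
    rw [h1] at hA
    exact (isIntegral_algebraMap_iff (algebraMap ℚ L).injective).1 hA
  obtain ⟨z, hz⟩ := IsIntegrallyClosed.isIntegral_iff.1 hA2
  refine ⟨z, ?_⟩
  have h1 : (φ : L →+* ℂ) (algebraMap ℚ L q) = (q : ℂ) := by simp
  rw [h1]
  have h2 : ((p.leadingCoeff : ℚ) ^ M * q : ℚ) = (z : ℚ) := by rw [← hz]; simp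
  exact_mod_cast congrArg (fun x : ℚ => (x : ℂ)) h2

/-- an integer polynomial which vanishes at the nonzero members of a finite set -/
theorem exists_poly (s : Finset ℂ) (hs : ∀ x ∈ s, x ≠ 0 ∧ IsAlgebraic ℤ x) :
    ∃ f : ℤ[X], f.eval 0 ≠ 0 ∧ ∀ x ∈ s, aeval x f = 0 := by
  classical
  induction s using Finset.induction_on with
  | empty => exact ⟨1, by simp, by simp⟩
  | insert a s ha ih =>
    obtain ⟨f, hf0, hf⟩ := ih (fun x hx => hs x (Finset.mem_insert_of_mem hx))
    obtain ⟨h1, h2⟩ := hs a (Finset.mem_insert_self a s)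
    obtain ⟨q, hq0, hq⟩ := h2.exists_nonzero_coeff_and_aeval_eq_zero
      (mem_nonZeroDivisors_of_ne_zero h1)
    refine ⟨q * f, ?_, ?_⟩
    · rw [eval_mul, ← coeff_zero_eq_eval_zero q]
      exact mul_ne_zero hq0 hf0
    · intro x hx
      rw [map_mul]
      rcases Finset.mem_insert.1 hx with rfl | hx
      · rw [hq, zero_mul]
      · rw [hf x hx, mul_zero]

/-- the bound for the error -/
theorem exists_prime (K B c : ℝ) (N : ℕ) :
    ∃ q : ℕ, N < q ∧ q.Prime ∧ K * (B ^ q * (c ^ q / (q - 1).factorial)) < 1 := by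
  have h1 := FloorSemiring.tendsto_pow_div_factorial_atTop (B * c)
  have h2 : Filter.Tendsto (fun n : ℕ => K * (B * c) * ((B * c) ^ n / n.factorial))
      Filter.atTop (nhds (K * (B * c) * 0)) := h1.const_mul _
  rw [mul_zero] at h2
  obtain ⟨n0, hn0⟩ := Filter.eventually_atTop.1 (h2.eventually (gt_mem_nhds zero_lt_one))
  obtain ⟨q, hq1, hq2⟩ := Nat.exists_infinite_primes (max (N + 1) (n0 + 1))
  have h3 : N + 1 ≤ q := le_trans (le_max_left _ _) hq1
  have h4 : n0 + 1 ≤ q := le_trans (le_max_right _ _) hq1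
  refine ⟨q, h3, hq2, ?_⟩
  have h5 := hn0 (q - 1) (by omega)
  have h6 : K * (B ^ q * (c ^ q / (q - 1).factorial)) =
      K * (B * c) * ((B * c) ^ (q - 1) / (q - 1).factorial) := by
    have h7 : (B * c) ^ q = (B * c) * (B * c) ^ (q - 1) := by
      rw [← pow_succ']; congr 1; omega
    have h8 : B ^ q * (c ^ q / (q - 1).factorial) = (B * c) ^ q / (q - 1).factorial := by
      rw [mul_pow]; ring
    rw [h8, h7]; ring
  rw [h6]; exact h5

theorem main (p : ℤ[X]) (hp : p ≠ 0) (hroot : aeval ((Real.pi : ℂ) * Complex.I) p = 0) :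
    False := by
  classical
  set R : Multiset ℂ := (p.map (Int.castRingHom ℂ)).roots with hR
  have hpC : p.map (Int.castRingHom ℂ) ≠ 0 :=
    (Polynomial.map_ne_zero_iff (RingHom.injective_int _)).2 hp
  have hpi : (Real.pi : ℂ) * Complex.I ∈ R := by
    rw [hR, mem_roots hpC, IsRoot.def, eval_map]
    rw [aeval_def] at hroot
    exact hroot
  -- the sum of the exponentials vanishes
  have hsum : ((ss R).map Complex.exp).sum = 0 := by
    rw [← prod_exp]
    apply Multiset.prod_eq_zero
    rw [Multiset.mem_map]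
    exact ⟨_, hpi, by rw [Complex.exp_pi_mul_I]; ring⟩
  set M1 := (ss R).filter (fun x => x ≠ 0) with hM1
  set k : ℕ := ((ss R).filter (fun x => ¬ x ≠ 0)).card with hk
  have hkpos : 0 < k := by
    rw [hk, Multiset.card_pos_iff_exists_mem]
    exact ⟨0, Multiset.mem_filter.2 ⟨zero_mem_ss R, by simp⟩⟩
  have hsplit : (M1.map Complex.exp).sum + k = 0 := by
    rw [← hsum, ← Multiset.filter_add_not (fun x : ℂ => x ≠ 0) (ss R), Multiset.map_add,
      Multiset.sum_add]
    congr 1
    have h1 : ((ss R).filter (fun x => ¬ x ≠ 0)).map Complex.exp =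
        ((ss R).filter (fun x => ¬ x ≠ 0)).map (fun _ => (1 : ℂ)) := by
      apply Multiset.map_congr rfl
      intro x hx
      have h2 := (Multiset.mem_filter.1 hx).2
      rw [not_not] at h2
      rw [h2, Complex.exp_zero]
    rw [h1]
    simp [hk]
  -- the members are algebraic
  have halg : ∀ x ∈ ss R, IsAlgebraic ℤ x := by
    apply ss_pred (fun x : ℂ => IsAlgebraic ℤ x)
    · exact isAlgebraic_zero
    · intro x y hx hy; exact hx.add hy
    · intro x hx
      refine ⟨p, hp, ?_⟩
      have h1 := (mem_roots'.1 hx).2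
      rw [IsRoot.def, eval_map] at h1
      rw [aeval_def]
      exact h1
  obtain ⟨f, hf0, hf⟩ := exists_poly M1.toFinset (by
    intro x hx
    rw [Multiset.mem_toFinset, hM1, Multiset.mem_filter] at hx
    exact ⟨hx.2, halg x hx.1⟩)
  have hfne : f ≠ 0 := by rintro rfl; simp at hf0
  obtain ⟨c, hc⟩ := LindemannWeierstrass.exp_polynomial_approx f hf0
  set a : ℤ := p.leadingCoeff with ha
  have hane : a ≠ 0 := leadingCoeff_ne_zero.2 hp
  obtain ⟨q, hq1, hq2, hq3⟩ := exists_prime (M1.card) (|(a : ℝ)| ^ f.natDegree) c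
    (max (max (eval 0 f).natAbs a.natAbs) k)
  have hq4 : (eval 0 f).natAbs < q :=
    lt_of_le_of_lt (le_trans (le_max_left _ _) (le_max_left _ _)) hq1
  have hq5 : a.natAbs < q :=
    lt_of_le_of_lt (le_trans (le_max_right _ _) (le_max_left _ _)) hq1
  have hq6 : k < q := lt_of_le_of_lt (le_max_right _ _) hq1
  obtain ⟨n, hn, gp, hgp, happ⟩ := hc q hq4 hq2
  obtain ⟨z, hz⟩ := rational_aux p gp (f.natDegree * q) (by
    have h1 := hgp
    have h2 : q * f.natDegree = f.natDegree * q := mul_comm _ _
    omega) inferInstance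
  rw [← hR, ← hM1, ← ha] at hz
  -- the small integer
  have hest : ‖(M1.map (fun x => n • Complex.exp x - q • aeval x gp)).sum‖ ≤
      M1.card * (c ^ q / (q - 1).factorial) := by
    refine le_trans (norm_multiset_sum_le _) ?_
    rw [Multiset.map_map]
    have h1 : ∀ x ∈ M1.map (norm ∘ fun x => n • Complex.exp x - q • aeval x gp),
        x ≤ c ^ q / (q - 1).factorial := by
      intro x hx
      rw [Multiset.mem_map] at hx
      obtain ⟨y, hy, rfl⟩ := hx
      refine happ ?_
      rw [mem_aroots]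
      exact ⟨hfne, hf y (Multiset.mem_toFinset.2 hy)⟩
    have h2 := Multiset.sum_le_card_nsmul _ _ h1
    rw [Multiset.card_map, nsmul_eq_mul] at h2
    exact h2
  have hval : (M1.map (fun x => n • Complex.exp x - q • aeval x gp)).sum =
      -((n : ℂ) * k + q * (M1.map (fun x => aeval x gp)).sum) := by
    rw [Multiset.sum_map_sub]
    have h1 : (M1.map (fun x => n • Complex.exp x)).sum = n * (M1.map Complex.exp).sum := by
      rw [← Multiset.sum_map_mul_left]
      simp [zsmul_eq_mul]
    have h2 : (M1.map (fun x => q • aeval x gp)).sum = q * (M1.map (fun x => aeval x gp)).sum := by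
      rw [← Multiset.sum_map_mul_left]
      simp [nsmul_eq_mul]
    have h3 : (M1.map Complex.exp).sum = -(k : ℂ) := by linear_combination hsplit
    rw [h1, h2, h3]
    ring
  set W : ℤ := a ^ (f.natDegree * q) * (n * k) + q * z with hW
  have hWC : (W : ℂ) = -((a : ℂ) ^ (f.natDegree * q) *
      (M1.map (fun x => n • Complex.exp x - q • aeval x gp)).sum) := by
    rw [hval, hW]
    push_cast
    rw [← hz]
    ring
  have hWlt : ‖(W : ℂ)‖ < 1 := by
    rw [hWC, norm_neg, norm_mul, norm_pow, Complex.norm_intCast]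
    refine lt_of_le_of_lt (mul_le_mul_of_nonneg_left hest (by positivity)) ?_
    rw [pow_mul]
    calc (|(a : ℝ)| ^ f.natDegree) ^ q * (M1.card * (c ^ q / (q - 1).factorial))
        = M1.card * ((|(a : ℝ)| ^ f.natDegree) ^ q * (c ^ q / (q - 1).factorial)) := by ring
      _ < 1 := hq3
  have hW0 : W = 0 := by
    rw [Complex.norm_intCast] at hWlt
    have h1 : |W| < 1 := by exact_mod_cast hWlt
    exact Int.abs_lt_one_iff.1 h1
  have hdvd : (q : ℤ) ∣ a ^ (f.natDegree * q) * (n * k) := by
    have h1 : a ^ (f.natDegree * q) * (n * k) = -(q * z) := by linarith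
    rw [h1]
    exact (dvd_mul_right _ _).neg_right
  have hqp : Prime (q : ℤ) := Nat.prime_iff_prime_int.1 hq2
  rcases hqp.dvd_or_dvd hdvd with h | h
  · have h1 := hqp.dvd_of_dvd_pow h
    have h2 := Int.natAbs_dvd_natAbs.2 h1
    rw [Int.natAbs_natCast] at h2
    exact absurd (Nat.le_of_dvd (Int.natAbs_pos.2 hane) h2) (not_le.2 hq5)
  · rcases hqp.dvd_or_dvd h with h | h
    · exact hn h
    · have h1 : q ∣ k := by exact_mod_cast h
      exact absurd (Nat.le_of_dvd hkpos h1) (not_le.2 hq6)

end PI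

/-- Lindemann's theorem for `2 π i`. -/
theorem tPI : T_PI := by
  intro P hP h0
  have h1 : IsAlgebraic ℤ (2 * (Real.pi : ℂ) * Complex.I) := ⟨P, hP, h0⟩
  have h2 : IsAlgebraic ℚ (2 * (Real.pi : ℂ) * Complex.I) := by
    exact (IsFractionRing.isAlgebraic_iff ℤ ℚ ℂ).1 h1
  have h3 : IsAlgebraic ℚ ((Real.pi : ℂ) * Complex.I) := by
    have h4 : (Real.pi : ℂ) * Complex.I =
        algebraMap ℚ ℂ (1 / 2) * (2 * (Real.pi : ℂ) * Complex.I) := by
      simp
      ring
    rw [h4]
    exact (isAlgebraic_algebraMap _).mul h2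
  obtain ⟨p, hp, hp0⟩ := (IsFractionRing.isAlgebraic_iff ℤ ℚ ℂ).2 h3
  exact PI.main p hp hp0

end KAA
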