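import Pool.Agent.KAA.Defs

namespace KAA
open Finset Polynomial

/-- The function attached to a polynomial in `log (z / x)` with polynomial coefficients. -/
noncomputable def phi (D : ℕ) (Q : Fin (D + 1) → Polynomial ℂ) (x : ℝ) (z : ℂ) : ℂ :=
  ∑ j, (Q j).eval z * (Complex.log (z / (x : ℂ))) ^ (j : ℕ)

theorem slit_of_ball {x : ℝ} (hx : 0 < x) {z : ℂ} (hz : ‖z - (x : ℂ)‖ < x) :
    z / (x : ℂ) ∈ Complex.slitPlane := by
  left
  have h1 : |(z - (x : ℂ)).re| < x := (Complex.abs_re_le_norm _).trans_lt hz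
  have h2 : 0 < z.re := by
    rw [Complex.sub_re, Complex.ofReal_re, abs_lt] at h1
    linarith [h1.1]
  have h3 : (z / (x : ℂ)).re = z.re / x := by
    rw [Complex.div_ofReal_re]
  rw [h3]; positivity

theorem phi_diff (D : ℕ) (Q : Fin (D + 1) → Polynomial ℂ) {x : ℝ} (hx : 0 < x) :
    DifferentiableOn ℂ (phi D Q x) {z | ‖z - (x : ℂ)‖ < x} := by
  unfold phi
  refine DifferentiableOn.fun_sum fun j _ => ?_
  refine DifferentiableOn.mul (Polynomial.differentiable _).differentiableOn ?_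
  refine DifferentiableOn.pow ?_ _
  refine DifferentiableOn.clog ?_ (fun z hz => slit_of_ball hx hz)
  exact (differentiable_id.div_const _).differentiableOn

theorem norm_eval_le {N : ℕ} (P : Polynomial ℂ) (hP : P.natDegree ≤ N) {x : ℝ}
    (hc : ∀ a, ‖P.coeff a‖ * x ^ a ≤ 1) {z : ℂ} (hz : ‖z‖ ≤ 2 * x) :
    ‖P.eval z‖ ≤ ((N : ℝ) + 1) * 2 ^ N := by
  rw [Polynomial.eval_eq_sum_range' (Nat.lt_succ_of_le hP)]
  refine (norm_sum_le _ _).trans ?_
  have h : ∀ a ∈ range N.succ, ‖P.coeff a * z ^ a‖ ≤ (2 : ℝ) ^ N := by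
    intro a ha
    rw [norm_mul, norm_pow]
    calc ‖P.coeff a‖ * ‖z‖ ^ a ≤ ‖P.coeff a‖ * (2 * x) ^ a := by gcongr
      _ = (‖P.coeff a‖ * x ^ a) * 2 ^ a := by rw [mul_pow]; ring
      _ ≤ 1 * 2 ^ a := by gcongr; exact hc a
      _ = 2 ^ a := one_mul _
      _ ≤ 2 ^ N := by
        apply pow_le_pow_right₀ (by norm_num)
        simp only [mem_range] at ha; omega
  calc ∑ a ∈ range N.succ, ‖P.coeff a * z ^ a‖ ≤ ∑ _a ∈ range N.succ, (2 : ℝ) ^ N :=
        Finset.sum_le_sum h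
    _ = ((N : ℝ) + 1) * 2 ^ N := by simp

theorem phi_bound {D N : ℕ} (Q : Fin (D + 1) → Polynomial ℂ) (hQ : ∀ j, (Q j).natDegree ≤ N)
    {x : ℝ} (hx : 0 < x) (hc : ∀ j a, ‖(Q j).coeff a‖ * x ^ a ≤ 1) {z : ℂ}
    (hz : ‖z - (x : ℂ)‖ ≤ 5 / 8 * x) :
    ‖phi D Q x z‖ ≤ ((D : ℝ) + 1) * (((N : ℝ) + 1) * 2 ^ N * 2 ^ D) := by
  have hzn : ‖z‖ ≤ 2 * x := by
    calc ‖z‖ = ‖(z - (x : ℂ)) + (x : ℂ)‖ := by ring_nf
      _ ≤ ‖z - (x : ℂ)‖ + ‖(x : ℂ)‖ := norm_add_le _ _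
      _ ≤ 5 / 8 * x + x := by
        gcongr; rw [Complex.norm_real, Real.norm_of_nonneg hx.le]
      _ ≤ 2 * x := by linarith
  have hxc : (x : ℂ) ≠ 0 := by exact_mod_cast hx.ne'
  have hlog : ‖Complex.log (z / (x : ℂ))‖ ≤ 2 := by
    set u : ℂ := z / (x : ℂ) - 1 with hu
    have hun : ‖u‖ ≤ 5 / 8 := by
      have : u = (z - (x : ℂ)) / (x : ℂ) := by rw [hu]; field_simp
      rw [this, norm_div, Complex.norm_real, Real.norm_of_nonneg hx.le, div_le_iff₀ hx]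
      exact hz
    have h1 : z / (x : ℂ) = 1 + u := by rw [hu]; ring
    rw [h1]
    refine (Complex.norm_log_one_add_le (by linarith)).trans ?_
    have h2 : (1 - ‖u‖)⁻¹ ≤ 8 / 3 := by
      rw [inv_le_comm₀ (by linarith) (by norm_num)]; linarith
    have h3 : ‖u‖ ^ 2 ≤ 25 / 64 := by
      have := norm_nonneg u; nlinarith
    have h4 : ‖u‖ ^ 2 * (1 - ‖u‖)⁻¹ ≤ 25 / 64 * (8 / 3) := by
      have h0 : 0 ≤ (1 - ‖u‖)⁻¹ := inv_nonneg.mpr (by linarith)
      exact mul_le_mul h3 h2 h0 (by norm_num)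
    linarith
  unfold phi
  refine (norm_sum_le _ _).trans ?_
  have h : ∀ j ∈ (univ : Finset (Fin (D + 1))),
      ‖(Q j).eval z * (Complex.log (z / (x : ℂ))) ^ (j : ℕ)‖ ≤ ((N : ℝ) + 1) * 2 ^ N * 2 ^ D := by
    intro j _
    rw [norm_mul, norm_pow]
    have h5 : ‖Complex.log (z / (x : ℂ))‖ ^ (j : ℕ) ≤ 2 ^ D := by
      calc ‖Complex.log (z / (x : ℂ))‖ ^ (j : ℕ) ≤ 2 ^ (j : ℕ) := by gcongr
        _ ≤ 2 ^ D := pow_le_pow_right₀ (by norm_num) (by have := j.2; omega)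
    exact mul_le_mul (norm_eval_le (Q j) (hQ j) (hc j) hzn) h5 (by positivity) (by positivity)
  calc _ ≤ ∑ _j : Fin (D + 1), ((N : ℝ) + 1) * 2 ^ N * 2 ^ D := Finset.sum_le_sum h
    _ = _ := by simp

/-- lower bound at some point of the disc of radius `l` about `x` -/
theorem phi_lower (hLB : T_LB) (D : ℕ) : ∃ C : ℝ, 0 < C ∧ ∀ (N : ℕ)
    (Q : Fin (D + 1) → Polynomial ℂ) (x l : ℝ), (∀ j, (Q j).natDegree ≤ N) → 0 < x → 0 < l →
    l ≤ 2 * x → (∃ j a, 1 ≤ ‖(Q j).coeff a‖ * x ^ a) →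
    ∃ z : ℂ, ‖z - (x : ℂ)‖ ≤ l ∧
      Real.exp (-(C * ((N : ℝ) + 1) ^ 2)) * (l / (2 * x)) ^ ((N + 1) * (D + 1)) ≤
        ‖phi D Q x z‖ := by
  obtain ⟨C, hC, h⟩ := hLB D
  refine ⟨C, hC, ?_⟩
  intro N Q x l hdeg hx hl hlx ⟨j0, a0, hja⟩
  have hr : 0 < l / (2 * x) := by positivity
  have hr1 : l / (2 * x) ≤ 1 := by rw [div_le_one (by positivity)]; exact hlx
  have ha0 : a0 < N + 1 := by
    by_contra hcon
    have : (Q j0).coeff a0 = 0 := Polynomial.coeff_eq_zero_of_natDegree_lt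
      (by have := hdeg j0; omega)
    rw [this] at hja
    norm_num at hja
  obtain ⟨w, hw, hlow⟩ := h N (fun j a => (Q j).coeff a * (x : ℂ) ^ (a : ℕ)) (l / (2 * x)) hr hr1
    ⟨j0, ⟨a0, ha0⟩, by
      rw [norm_mul, norm_pow, Complex.norm_real, Real.norm_of_nonneg hx.le]; exact hja⟩
  have hxc : (x : ℂ) ≠ 0 := by exact_mod_cast hx.ne'
  refine ⟨x * Complex.exp w, ?_, ?_⟩
  · have h1 : (x : ℂ) * Complex.exp w - x = x * (Complex.exp w - 1) := by ring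
    rw [h1, norm_mul, Complex.norm_real, Real.norm_of_nonneg hx.le]
    have h2 := Complex.norm_exp_sub_one_le (hw.trans hr1)
    calc x * ‖Complex.exp w - 1‖ ≤ x * (2 * ‖w‖) := by gcongr
      _ ≤ x * (2 * (l / (2 * x))) := by gcongr
      _ = l := by field_simp
  · refine hlow.trans (le_of_eq ?_)
    congr 1
    unfold phi
    refine Finset.sum_congr rfl fun j _ => ?_
    have hlog : Complex.log (x * Complex.exp w / x) = w := by
      have h1 : (x : ℂ) * Complex.exp w / x = Complex.exp w := by field_simp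
      have h2 : |w.im| ≤ 1 := (Complex.abs_im_le_norm w).trans (hw.trans hr1)
      have h3 := Real.pi_gt_three
      rw [abs_le] at h2
      rw [h1, Complex.log_exp (by linarith [h2.1]) (by linarith [h2.2])]
    rw [hlog, Polynomial.eval_eq_sum_range' (Nat.lt_succ_of_le (hdeg j)), Finset.sum_mul,
      Finset.sum_range]
    refine Finset.sum_congr rfl fun a _ => ?_
    rw [mul_pow, ← Complex.exp_nat_mul]
    ring

end KAA
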