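import Pool.Agent.KAA.Defs

/-!
Either some square choice of rows is nonsingular, or there is a common integer relation.
-/

namespace KAA

theorem tRK : T_RK := by
  intro ι _ _ E v
  classical
  let u : E → ι → ℚ := fun e i => (v e i : ℚ)
  by_cases h : Submodule.span ℚ (Set.range u) = ⊤
  · left
    obtain ⟨b, hb1, hb2, hb3⟩ := exists_linearIndependent ℚ (Set.range u)
    let B : Module.Basis b ℚ (ι → ℚ) :=
      Module.Basis.mk hb3 (by rw [Subtype.range_coe, hb2, h])
    haveI : Fintype b := FiniteDimensional.fintypeBasisIndex B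
    have hcard : Fintype.card ι = Fintype.card b := by
      rw [← Module.finrank_eq_card_basis B, Module.finrank_fintype_fun_eq_card]
    let σ : ι ≃ b := Fintype.equivOfCardEq hcard
    have hσ : ∀ k, ∃ e, u e = (σ k).1 := fun k => hb1 (σ k).2
    choose e he using hσ
    refine ⟨e, ?_⟩
    have hli : LinearIndependent ℚ (fun k : ι => u (e k)) := by
      have h1 : (fun k : ι => u (e k)) = (fun x : b => (x : ι → ℚ)) ∘ σ := by
        funext k
        rw [he k]; rfl
      rw [h1]
      exact hb3.comp σ σ.injective
    let M : Matrix ι ι ℤ := fun k i => v (e k) i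
    have hM : IsUnit ((Int.castRingHom ℚ).mapMatrix M) := by
      rw [← Matrix.linearIndependent_rows_iff_isUnit]
      exact hli
    rw [Matrix.isUnit_iff_isUnit_det, ← RingHom.map_det, isUnit_iff_ne_zero] at hM
    intro h0
    exact hM (by rw [show M.det = 0 from h0, map_zero])
  · right
    obtain ⟨f, hf, hle⟩ := Submodule.exists_le_ker_of_lt_top _ (lt_top_iff_ne_top.2 h)
    let a : ι → ℚ := fun i => f (Pi.single i 1)
    have hfa : ∀ w : ι → ℚ, f w = ∑ i, w i * a i := by
      intro w
      rw [LinearMap.pi_apply_eq_sum_univ f w]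
      refine Finset.sum_congr rfl fun i _ => ?_
      have h1 : (fun j => if i = j then (1 : ℚ) else 0) = Pi.single i 1 := by
        funext j
        by_cases hij : i = j
        · subst hij; simp
        · simp [hij, Pi.single_apply, Ne.symm hij]
      rw [h1, smul_eq_mul]
    obtain ⟨N, hN⟩ := IsLocalization.exist_integer_multiples_of_finite (nonZeroDivisors ℤ) a
    choose g hg using hN
    have hN0 : ((N : ℤ) : ℚ) ≠ 0 := by
      exact_mod_cast nonZeroDivisors.ne_zero N.2
    have hg' : ∀ i, (g i : ℚ) = ((N : ℤ) : ℚ) * a i := by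
      intro i
      have := hg i
      rw [zsmul_eq_mul] at this
      exact this
    refine ⟨g, ?_, fun x => ?_⟩
    · intro h0
      apply hf
      refine LinearMap.ext fun w => ?_
      rw [hfa w]
      refine Finset.sum_eq_zero fun i _ => ?_
      have h1 := hg' i
      rw [h0] at h1
      have h2 : a i = 0 := by
        rcases mul_eq_zero.1 h1.symm with h3 | h3
        · exact absurd h3 hN0
        · exact h3
      rw [h2, mul_zero]
    · have h1 : f (u x) = 0 := hle (Submodule.subset_span ⟨x, rfl⟩)
      rw [hfa] at h1
      have h2 : ((∑ i, g i * v x i : ℤ) : ℚ) = 0 := by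
        push_cast
        calc ∑ i, (g i : ℚ) * (v x i : ℚ) = ((N : ℤ) : ℚ) * ∑ i, u x i * a i := by
              rw [Finset.mul_sum]
              refine Finset.sum_congr rfl fun i _ => ?_
              rw [hg' i]
              show _ = ((N : ℤ) : ℚ) * ((v x i : ℚ) * a i)
              ring
          _ = 0 := by rw [h1, mul_zero]
      exact_mod_cast h2

end KAA
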