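import Pool.Agent.KAA.Defs

namespace KAA
open Finset

theorem fact_bound (s m A : ℕ) (hs : 1 ≤ s) (hsm : s ≤ m) :
    ((s * (A + 1)).factorial : ℝ) ≤
      Real.exp (((A : ℝ) + 1) * (((A : ℝ) + 1) / 32 + 32 * (m : ℝ) ^ 3)) := by
  set L : ℕ := s * (A + 1) with hL
  have hm1 : (1 : ℝ) ≤ m := by exact_mod_cast hs.trans hsm
  have hsr : (s : ℝ) ≤ m := by exact_mod_cast hsm
  have hs1 : (1 : ℝ) ≤ s := by exact_mod_cast hs
  set K : ℝ := 32 * (m : ℝ) ^ 2 with hK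
  have hKpos : 0 < K := by positivity
  have hLpos : (0 : ℝ) ≤ L := Nat.cast_nonneg _
  have hLr : (L : ℝ) = s * ((A : ℝ) + 1) := by rw [hL]; push_cast; ring
  have h1 : (L : ℝ) ≤ Real.exp ((L : ℝ) / K + K) := by
    have h2 : (L : ℝ) / K ≤ Real.exp ((L : ℝ) / K) := by
      linarith [Real.add_one_le_exp ((L : ℝ) / K)]
    have h3 : K ≤ Real.exp K := by linarith [Real.add_one_le_exp K]
    calc (L : ℝ) = (L : ℝ) / K * K := by field_simp
      _ ≤ Real.exp ((L : ℝ) / K) * Real.exp K := by gcongr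
      _ = _ := by rw [← Real.exp_add]
  have h4 : (L.factorial : ℝ) ≤ (L : ℝ) ^ L := by exact_mod_cast Nat.factorial_le_pow L
  refine h4.trans ?_
  calc (L : ℝ) ^ L ≤ (Real.exp ((L : ℝ) / K + K)) ^ L := by gcongr
    _ = Real.exp ((L : ℝ) * ((L : ℝ) / K + K)) := by rw [← Real.exp_nat_mul]
    _ ≤ _ := by
      apply Real.exp_le_exp.mpr
      rw [hLr]
      have hA : (0 : ℝ) ≤ (A : ℝ) + 1 := by positivity
      have h5 : (s : ℝ) * (s * ((A : ℝ) + 1) / K) ≤ ((A : ℝ) + 1) / 32 := by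
        rw [hK, mul_div_assoc', div_le_div_iff₀ (by positivity) (by norm_num)]
        have h6 : (s : ℝ) * s ≤ (m : ℝ) ^ 2 := by nlinarith
        calc (s : ℝ) * (s * ((A : ℝ) + 1)) * 32 = ((s : ℝ) * s) * (32 * ((A : ℝ) + 1)) := by ring
          _ ≤ (m : ℝ) ^ 2 * (32 * ((A : ℝ) + 1)) := by gcongr
          _ = ((A : ℝ) + 1) * (32 * (m : ℝ) ^ 2) := by ring
      have h7 : (s : ℝ) * K ≤ 32 * (m : ℝ) ^ 3 := by
        rw [hK]
        calc (s : ℝ) * (32 * (m : ℝ) ^ 2) ≤ m * (32 * (m : ℝ) ^ 2) := by gcongr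
          _ = 32 * (m : ℝ) ^ 3 := by ring
      have h8 : (s : ℝ) * ((A : ℝ) + 1) * (s * ((A : ℝ) + 1) / K + K) =
          ((A : ℝ) + 1) * ((s : ℝ) * (s * ((A : ℝ) + 1) / K) + (s : ℝ) * K) := by ring
      rw [h8]
      gcongr

theorem two_pow_le_exp (n : ℕ) : (2 : ℝ) ^ n ≤ Real.exp n := by
  have h : (2 : ℝ) ≤ Real.exp 1 := by
    have := Real.add_one_le_exp (1 : ℝ); linarith
  calc (2 : ℝ) ^ n ≤ (Real.exp 1) ^ n := by gcongr
    _ = Real.exp n := by rw [← Real.exp_nat_mul]; simp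

theorem star (D m : ℕ) (C : ℝ) (hC : 0 < C) : ∃ C' : ℝ, 0 < C' ∧
    ∀ (s N A : ℕ) (H T x : ℝ), 1 ≤ s → s ≤ m → 1 ≤ H → 16 ≤ T →
      T ^ (1 / 2 : ℝ) / 2 ≤ x → x ≤ 2 * T → C' * (1 + N + Real.log H) ^ 2 ≤ A →
      ((s * (A + 1)).factorial : ℝ) *
          (2 * s * (((D : ℝ) + 1) * (((N : ℝ) + 1) * 2 ^ N * 2 ^ D))) ^ (A + 1) *
          H ^ (s * (A + 1)) *
          (T ^ (1 / (8 * ((m : ℝ) + 1))) / 4) ^ (s * ∑ a ∈ range (A + 1), a) *
          ((T ^ (1 / (8 * ((m : ℝ) + 1))) / 4) / (x / 2)) ^ (∑ a ∈ range (A + 1), (a + 1)) <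
        (Real.exp (-(C * ((N : ℝ) + 1) ^ 2)) *
          ((T ^ (1 / (8 * ((m : ℝ) + 1))) / 8) / (2 * x)) ^ ((N + 1) * (D + 1))) ^ (A + 1) := by
  refine ⟨16 * (C + 3 * ((D : ℝ) + 1) + 32 * (m : ℝ) ^ 3 + 3 * m + 2 * D + 2) + 1, by positivity, ?_⟩
  intro s N A H T x hs hsm hH hT hx1 hx2 hA
  set κ : ℝ := 1 / (8 * ((m : ℝ) + 1)) with hκ
  set h : ℝ := Real.log H with hh
  set τ : ℝ := Real.log T with hτ
  have hT0 : 0 < T := by linarith
  have hH0 : 0 < H := by linarith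
  have hh0 : 0 ≤ h := Real.log_nonneg hH
  have hm1 : (1 : ℝ) ≤ m := by exact_mod_cast hs.trans hsm
  have hsr : (s : ℝ) ≤ m := by exact_mod_cast hsm
  have hs1 : (1 : ℝ) ≤ s := by exact_mod_cast hs
  have hκ0 : 0 < κ := by positivity
  have hκ8 : κ ≤ 1 / 8 := by
    rw [hκ]; apply one_div_le_one_div_of_le (by norm_num); linarith
  have hκs : κ * s ≤ 1 / 8 := by
    rw [hκ, div_mul_eq_mul_div, div_le_div_iff₀ (by positivity) (by norm_num)]; linarith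
  have hτ1 : 1 ≤ τ := by
    rw [hτ, Real.le_log_iff_exp_le hT0]
    have := Real.exp_one_lt_d9; linarith
  have hTκ : T ^ κ = Real.exp (κ * τ) := by
    rw [Real.rpow_def_of_pos hT0, hτ, mul_comm]
  have hThalf : T ^ (1 / 2 : ℝ) = Real.exp (τ / 2) := by
    rw [Real.rpow_def_of_pos hT0, hτ]; congr 1; ring
  have hTexp : T = Real.exp τ := (Real.exp_log hT0).symm
  have hx0 : 0 < x := by
    have : 0 < T ^ (1 / 2 : ℝ) := Real.rpow_pos_of_pos hT0 _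
    linarith
  have hTκpos : 0 < T ^ κ := Real.rpow_pos_of_pos hT0 _
  have hTκ1 : 1 ≤ T ^ κ := Real.one_le_rpow (by linarith) hκ0.le
  have hA0 : (0 : ℝ) ≤ A := Nat.cast_nonneg _
  have hN0 : (0 : ℝ) ≤ N := Nat.cast_nonneg _
  have hD0 : (0 : ℝ) ≤ D := Nat.cast_nonneg _
  -- sums
  have hS1 : ((∑ a ∈ range (A + 1), a : ℕ) : ℝ) = (A : ℝ) * (A + 1) / 2 := by
    have := Finset.sum_range_id_mul_two (A + 1)
    have h2 : ((∑ a ∈ range (A + 1), a : ℕ) : ℝ) * 2 = ((A : ℝ) + 1) * A := by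
      have h3 : ((∑ a ∈ range (A + 1), a) * 2 : ℕ) = (A + 1) * A := by simpa using this
      exact_mod_cast h3
    linarith
  have hS2 : ((∑ a ∈ range (A + 1), (a + 1) : ℕ) : ℝ) = ((A : ℝ) + 1) * (A + 2) / 2 := by
    rw [Finset.sum_add_distrib]
    push_cast
    have h4 : (∑ a ∈ range (A + 1), (a : ℝ)) = (A : ℝ) * (A + 1) / 2 := by
      rw [← hS1]; push_cast; rfl
    rw [h4]; simp; ring
  -- the pieces of the left side
  have p1 := fact_bound s m A hs hsm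
  have p2 : (2 * (s : ℝ) * (((D : ℝ) + 1) * (((N : ℝ) + 1) * 2 ^ N * 2 ^ D))) ^ (A + 1) ≤
      Real.exp (((A : ℝ) + 1) * (2 * m + 2 * N + 2 * D)) := by
    have h1 : 2 * (s : ℝ) * (((D : ℝ) + 1) * (((N : ℝ) + 1) * 2 ^ N * 2 ^ D)) ≤
        Real.exp (2 * m + 2 * N + 2 * D) := by
      have e1 : 2 * (s : ℝ) ≤ Real.exp (2 * m) := by
        linarith [Real.add_one_le_exp (2 * (m : ℝ))]
      have e2 : (D : ℝ) + 1 ≤ Real.exp D := Real.add_one_le_exp _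
      have e3 : (N : ℝ) + 1 ≤ Real.exp N := Real.add_one_le_exp _
      have e4 := two_pow_le_exp N
      have e5 := two_pow_le_exp D
      calc 2 * (s : ℝ) * (((D : ℝ) + 1) * (((N : ℝ) + 1) * 2 ^ N * 2 ^ D))
          ≤ Real.exp (2 * m) * (Real.exp D * (Real.exp N * Real.exp N * Real.exp D)) := by
            gcongr
        _ = _ := by
            rw [← Real.exp_add, ← Real.exp_add, ← Real.exp_add, ← Real.exp_add]; congr 1; ring
    calc _ ≤ (Real.exp (2 * m + 2 * N + 2 * D)) ^ (A + 1) := by gcongr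
      _ = _ := by rw [← Real.exp_nat_mul]; push_cast; rfl
  have p3 : H ^ (s * (A + 1)) ≤ Real.exp (((A : ℝ) + 1) * (h * m)) := by
    have : H = Real.exp h := (Real.exp_log hH0).symm
    rw [this, ← Real.exp_nat_mul]
    apply Real.exp_le_exp.mpr
    push_cast
    have h9 : (s : ℝ) * h ≤ m * h := by gcongr
    calc (s : ℝ) * (A + 1) * h = ((A : ℝ) + 1) * (s * h) := by ring
      _ ≤ ((A : ℝ) + 1) * (m * h) := by gcongr
      _ = ((A : ℝ) + 1) * (h * m) := by ring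
  have p4 : (T ^ κ / 4) ^ (s * ∑ a ∈ range (A + 1), a) ≤
      Real.exp (((A : ℝ) + 1) * (τ * A / 16)) := by
    calc (T ^ κ / 4) ^ (s * ∑ a ∈ range (A + 1), a)
        ≤ (T ^ κ) ^ (s * ∑ a ∈ range (A + 1), a) := by gcongr; linarith
      _ = Real.exp ((s * ∑ a ∈ range (A + 1), a : ℕ) * (κ * τ)) := by
          rw [hTκ, ← Real.exp_nat_mul]
      _ ≤ _ := by
        apply Real.exp_le_exp.mpr
        rw [Nat.cast_mul, hS1]
        have : (s : ℝ) * (A * (A + 1) / 2) * (κ * τ) = (κ * s) * (A * (A + 1) / 2 * τ) := by ring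
        rw [this]
        have h5 : (κ * s) * (A * (A + 1) / 2 * τ) ≤ (1 / 8) * (A * (A + 1) / 2 * τ) := by gcongr
        linarith
  have p5 : ((T ^ κ / 4) / (x / 2)) ^ (∑ a ∈ range (A + 1), (a + 1)) ≤
      Real.exp (((A : ℝ) + 1) * (-(3 / 16 * τ * (A + 2)))) := by
    have h1 : (T ^ κ / 4) / (x / 2) ≤ Real.exp (-(3 / 8 * τ)) := by
      rw [div_le_iff₀ (by positivity)]
      have h2 : Real.exp (τ / 2) / 2 ≤ x := by rw [← hThalf]; exact hx1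
      calc T ^ κ / 4 = Real.exp (κ * τ) / 4 := by rw [hTκ]
        _ ≤ Real.exp (1 / 8 * τ) / 4 := by gcongr
        _ = Real.exp (-(3 / 8 * τ)) * (Real.exp (τ / 2) / 2 / 2) := by
            have : Real.exp (1 / 8 * τ) = Real.exp (-(3 / 8 * τ)) * Real.exp (τ / 2) := by
              rw [← Real.exp_add]; congr 1; ring
            rw [this]; ring
        _ ≤ _ := by gcongr
    calc _ ≤ (Real.exp (-(3 / 8 * τ))) ^ (∑ a ∈ range (A + 1), (a + 1)) := by gcongr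
      _ = Real.exp ((∑ a ∈ range (A + 1), (a + 1) : ℕ) * (-(3 / 8 * τ))) := by
          rw [← Real.exp_nat_mul]
      _ = _ := by rw [hS2]; congr 1; ring
  have hL : ((s * (A + 1)).factorial : ℝ) *
          (2 * s * (((D : ℝ) + 1) * (((N : ℝ) + 1) * 2 ^ N * 2 ^ D))) ^ (A + 1) *
          H ^ (s * (A + 1)) *
          (T ^ κ / 4) ^ (s * ∑ a ∈ range (A + 1), a) *
          ((T ^ κ / 4) / (x / 2)) ^ (∑ a ∈ range (A + 1), (a + 1)) ≤
      Real.exp (((A : ℝ) + 1) * ((((A : ℝ) + 1) / 32 + 32 * (m : ℝ) ^ 3) +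
        (2 * m + 2 * N + 2 * D) + h * m + τ * A / 16 + -(3 / 16 * τ * (A + 2)))) := by
    have e : Real.exp (((A : ℝ) + 1) * ((((A : ℝ) + 1) / 32 + 32 * (m : ℝ) ^ 3) +
        (2 * m + 2 * N + 2 * D) + h * m + τ * A / 16 + -(3 / 16 * τ * (A + 2)))) =
        Real.exp (((A : ℝ) + 1) * (((A : ℝ) + 1) / 32 + 32 * (m : ℝ) ^ 3)) *
        Real.exp (((A : ℝ) + 1) * (2 * m + 2 * N + 2 * D)) *
        Real.exp (((A : ℝ) + 1) * (h * m)) *
        Real.exp (((A : ℝ) + 1) * (τ * A / 16)) *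
        Real.exp (((A : ℝ) + 1) * (-(3 / 16 * τ * (A + 2)))) := by
      rw [← Real.exp_add, ← Real.exp_add, ← Real.exp_add, ← Real.exp_add]; congr 1; ring
    rw [e]
    gcongr
  -- the right side
  have hR : Real.exp (((A : ℝ) + 1) * (-(C * ((N : ℝ) + 1) ^ 2) -
        3 * τ * (((N : ℝ) + 1) * (D + 1)))) ≤
      (Real.exp (-(C * ((N : ℝ) + 1) ^ 2)) *
          ((T ^ κ / 8) / (2 * x)) ^ ((N + 1) * (D + 1))) ^ (A + 1) := by
    have h1 : Real.exp (-(3 * τ)) ≤ (T ^ κ / 8) / (2 * x) := by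
      rw [le_div_iff₀ (by positivity)]
      have h2 : Real.exp (-(3 * τ)) = (T ^ 3)⁻¹ := by
        rw [Real.exp_neg]; congr 1
        rw [hTexp, ← Real.exp_nat_mul]; simp
      rw [h2]
      have h3 : (T ^ 3)⁻¹ * (2 * x) ≤ (T ^ 3)⁻¹ * (4 * T) :=
        mul_le_mul_of_nonneg_left (by linarith) (by positivity)
      have h4 : (T ^ 3)⁻¹ * (4 * T) = 4 / T ^ 2 := by field_simp
      have h5 : 4 / T ^ 2 ≤ 1 / 8 := by
        rw [div_le_div_iff₀ (by positivity) (by norm_num)]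
        have h6 : (16 : ℝ) ^ 2 ≤ T ^ 2 := by gcongr
        linarith
      linarith
    calc Real.exp (((A : ℝ) + 1) * (-(C * ((N : ℝ) + 1) ^ 2) -
        3 * τ * (((N : ℝ) + 1) * (D + 1))))
        = (Real.exp (-(C * ((N : ℝ) + 1) ^ 2)) *
          (Real.exp (-(3 * τ))) ^ ((N + 1) * (D + 1))) ^ (A + 1) := by
          rw [← Real.exp_nat_mul, ← Real.exp_add, ← Real.exp_nat_mul]
          congr 1; push_cast; ring
      _ ≤ _ := by gcongr
  refine lt_of_le_of_lt hL (lt_of_lt_of_le ?_ hR)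
  apply Real.exp_lt_exp.mpr
  have hA1 : (0 : ℝ) < (A : ℝ) + 1 := by positivity
  refine mul_lt_mul_of_pos_left ?_ hA1
  set B : ℝ := 1 + N + h with hB
  have hB1 : 1 ≤ B := by rw [hB]; linarith
  have hBB : B ≤ B ^ 2 := by
    calc B = B * 1 := (mul_one B).symm
      _ ≤ B * B := by gcongr
      _ = B ^ 2 := (sq B).symm
  have b1 : ((N : ℝ) + 1) ^ 2 ≤ B ^ 2 := by
    have : (N : ℝ) + 1 ≤ B := by rw [hB]; linarith
    gcongr
  have b2 : ((N : ℝ) + 1) ≤ B ^ 2 := by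
    have : (N : ℝ) + 1 ≤ B := by rw [hB]; linarith
    linarith
  have b3 : h ≤ B ^ 2 := by
    have : h ≤ B := by rw [hB]; linarith
    linarith
  have b4 : (1 : ℝ) ≤ B ^ 2 := by linarith
  have hkey : C * ((N : ℝ) + 1) ^ 2 + 3 * (((N : ℝ) + 1) * (D + 1)) + 32 * (m : ℝ) ^ 3 +
      (2 * m + 2 * N + 2 * D) + h * m < A / 16 := by
    have c1 : C * ((N : ℝ) + 1) ^ 2 ≤ C * B ^ 2 := by gcongr
    have c2 : 3 * (((N : ℝ) + 1) * (D + 1)) ≤ 3 * ((D : ℝ) + 1) * B ^ 2 := by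
      have : ((N : ℝ) + 1) * (D + 1) ≤ B ^ 2 * (D + 1) := by gcongr
      linarith
    have c3 : 32 * (m : ℝ) ^ 3 ≤ 32 * (m : ℝ) ^ 3 * B ^ 2 :=
      le_mul_of_one_le_right (by positivity) b4
    have c4 : 2 * (m : ℝ) ≤ 2 * m * B ^ 2 :=
      le_mul_of_one_le_right (by positivity) b4
    have c5 : 2 * (N : ℝ) ≤ 2 * B ^ 2 := by linarith
    have c6 : 2 * (D : ℝ) ≤ 2 * D * B ^ 2 :=
      le_mul_of_one_le_right (by positivity) b4
    have c7 : h * m ≤ m * B ^ 2 := by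
      have : h * m ≤ B ^ 2 * m := by gcongr
      linarith
    have c8 : (16 * (C + 3 * ((D : ℝ) + 1) + 32 * (m : ℝ) ^ 3 + 3 * m + 2 * D + 2) + 1) * B ^ 2 / 16
        ≤ A / 16 := by gcongr
    have hB2 : 0 < B ^ 2 := by positivity
    linarith
  clear hL hR p1 p2 p3 p4 p5 hA hx1 hx2 hTκ hThalf hTexp b1 b2 b3 b4 hBB hS1 hS2
  obtain ⟨W, hW⟩ : ∃ W : ℝ, W = ((N : ℝ) + 1) * (D + 1) := ⟨_, rfl⟩
  obtain ⟨Q, hQ⟩ : ∃ Q : ℝ, Q = C * ((N : ℝ) + 1) ^ 2 + 32 * (m : ℝ) ^ 3 +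
      (2 * m + 2 * N + 2 * D) + h * m := ⟨_, rfl⟩
  have hQ0 : 0 ≤ Q := by rw [hQ]; positivity
  rw [← hW] at hkey ⊢
  have hkey3 : Q + 3 * W < A / 16 := by rw [hQ]; linarith
  have g1 : τ * (Q + 3 * W) < τ * (A / 16) := mul_lt_mul_of_pos_left hkey3 (by linarith)
  have g2 : 0 ≤ (τ - 1) * Q := mul_nonneg (by linarith) hQ0
  have g3 : 0 ≤ (τ - 1) * ((A : ℝ) + 1) := mul_nonneg (by linarith) hA1.le
  have goal' : (((A : ℝ) + 1) / 32) + Q + τ * A / 16 + -(3 / 16 * τ * (A + 2)) < - 3 * τ * W := by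
    linarith
  rw [hQ] at goal'
  linarith

end KAA
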