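import Pool.Agent.KAA.Defs
import Pool.Agent.KAA.CL
import Pool.Agent.KAA.Phi
import Pool.Agent.KAA.Star
import Pool.Agent.KAA.RK
import Pool.Agent.KAA.LB

namespace KAA
open Finset Polynomial

theorem Tk_le (m : ℕ) {T x : ℝ} (hT : 16 ≤ T) (hx : T ^ (1 / 2 : ℝ) / 2 ≤ x) :
    T ^ (1 / (8 * ((m : ℝ) + 1))) ≤ x := by
  have hT1 : 1 ≤ T := by linarith
  have hT0 : 0 < T := by linarith
  have h1 : T ^ (1 / (8 * ((m : ℝ) + 1))) ≤ T ^ (1 / 8 : ℝ) := by
    apply Real.rpow_le_rpow_of_exponent_le hT1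
    apply one_div_le_one_div_of_le (by norm_num)
    have : (0 : ℝ) ≤ m := Nat.cast_nonneg _
    linarith
  have h2 : (2 : ℝ) ≤ T ^ (1 / 4 : ℝ) := by
    calc (2 : ℝ) = (16 : ℝ) ^ (1 / 4 : ℝ) := by
          rw [show (16 : ℝ) = 2 ^ (4 : ℝ) by norm_num, ← Real.rpow_mul (by norm_num)]
          norm_num
      _ ≤ T ^ (1 / 4 : ℝ) := by gcongr
  have h3 : T ^ (1 / 8 : ℝ) * T ^ (1 / 4 : ℝ) ≤ T ^ (1 / 2 : ℝ) := by
    rw [← Real.rpow_add hT0]
    apply Real.rpow_le_rpow_of_exponent_le hT1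
    norm_num
  have h4 : 0 < T ^ (1 / 8 : ℝ) := Real.rpow_pos_of_pos hT0 _
  have h5 : T ^ (1 / 8 : ℝ) * 2 ≤ T ^ (1 / 8 : ℝ) * T ^ (1 / 4 : ℝ) := by gcongr
  linarith

theorem step (D m : ℕ) : ∃ C' : ℝ, 0 < C' ∧
    ∀ (s N A : ℕ) (H T x : ℝ), 1 ≤ s → s ≤ m → 1 ≤ H → 16 ≤ T →
      T ^ (1 / 2 : ℝ) / 2 ≤ x → x ≤ 2 * T → C' * (1 + N + Real.log H) ^ 2 ≤ A →
    ∀ Ψ : Fin s → Fin (D + 1) → Polynomial ℂ, (∀ i j, (Ψ i j).natDegree ≤ N) → Ψ ≠ 0 →
    ∀ (E : Set ℕ) (c : ℕ → Fin s → ℤ),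
      (∀ t ∈ E, |(t : ℝ) - x| ≤ T ^ (1 / (8 * ((m : ℝ) + 1))) / 8) →
      (∀ t ∈ E, ∀ i, |(c t i : ℝ)| ≤ H) →
      (∀ t ∈ E, ∑ j, (∑ i, (c t i : ℂ) * (Ψ i j).eval (t : ℂ)) *
        (Real.log ((t : ℝ) / x) : ℂ) ^ (j : ℕ) = 0) →
      ∃ g : Fin s → Polynomial ℤ, g ≠ 0 ∧ (∀ i, (g i).natDegree ≤ A) ∧
        ∀ t ∈ E, ∑ i, (g i).eval (t : ℤ) * c t i = 0 := by
  obtain ⟨C, hC, hlow⟩ := phi_lower tLB D
  obtain ⟨C', hC', hstar⟩ := star D m C hC
  refine ⟨C', hC', ?_⟩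
  intro s N A H T x hs hsm hH hT hx1 hx2 hA Ψ hdeg hΨ E c hEx hEH hErel
  rcases tRK (Fin s × Fin (A + 1)) E (fun t ia => c t.1 ia.1 * (t.1 : ℤ) ^ (ia.2 : ℕ)) with
    ⟨e, he⟩ | ⟨g, hg0, hg⟩
  · exfalso
    have hT0 : 0 < T := by linarith
    have hTk := Tk_le m hT hx1
    set κ : ℝ := 1 / (8 * ((m : ℝ) + 1)) with hκ
    have hTkpos : 0 < T ^ κ := Real.rpow_pos_of_pos hT0 _
    have hx0 : 0 < x := lt_of_lt_of_le hTkpos hTk
    -- normalisation
    obtain ⟨i1, j1, hij1⟩ : ∃ i1 j1, Ψ i1 j1 ≠ 0 := by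
      by_contra hcon
      push Not at hcon
      exact hΨ (by funext i j; exact hcon i j)
    obtain ⟨⟨i0, j0, a0⟩, -, hmax⟩ := Finset.exists_max_image
      (univ : Finset (Fin s × Fin (D + 1) × Fin (N + 1)))
      (fun p => ‖(Ψ p.1 p.2.1).coeff (p.2.2 : ℕ)‖ * x ^ (p.2.2 : ℕ)) ⟨(i1, j1, 0), mem_univ _⟩
    set ν : ℝ := ‖(Ψ i0 j0).coeff (a0 : ℕ)‖ * x ^ (a0 : ℕ) with hν
    have hle : ∀ i j (a : ℕ), ‖(Ψ i j).coeff a‖ * x ^ a ≤ ν := by
      intro i j a
      by_cases ha : a < N + 1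
      · exact hmax (i, j, ⟨a, ha⟩) (mem_univ _)
      · have : (Ψ i j).coeff a = 0 := Polynomial.coeff_eq_zero_of_natDegree_lt
          (by have := hdeg i j; omega)
        rw [this]; simp only [norm_zero, zero_mul]; positivity
    have hνpos : 0 < ν := by
      have h1 := hle i1 j1 (Ψ i1 j1).natDegree
      have h2 : 0 < ‖(Ψ i1 j1).coeff (Ψ i1 j1).natDegree‖ := by
        rw [norm_pos_iff]
        exact Polynomial.leadingCoeff_ne_zero.mpr hij1
      have h3 : 0 < ‖(Ψ i1 j1).coeff (Ψ i1 j1).natDegree‖ * x ^ (Ψ i1 j1).natDegree := by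
        positivity
      linarith
    let Q : Fin s → Fin (D + 1) → Polynomial ℂ := fun i j => Polynomial.C ((ν : ℂ)⁻¹) * Ψ i j
    have hQdeg : ∀ i j, (Q i j).natDegree ≤ N := fun i j =>
      (Polynomial.natDegree_C_mul_le _ _).trans (hdeg i j)
    have hQc : ∀ i j a, ‖(Q i j).coeff a‖ * x ^ a = (‖(Ψ i j).coeff a‖ * x ^ a) / ν := by
      intro i j a
      simp only [Q, Polynomial.coeff_C_mul, norm_mul, norm_inv, Complex.norm_real,
        Real.norm_of_nonneg hνpos.le]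
      field_simp
    have hQle : ∀ i j a, ‖(Q i j).coeff a‖ * x ^ a ≤ 1 := by
      intro i j a
      rw [hQc, div_le_one hνpos]; exact hle i j a
    have hQge : ∃ j a, 1 ≤ ‖(Q i0 j).coeff a‖ * x ^ a := by
      refine ⟨j0, a0, ?_⟩
      rw [hQc, ← hν, div_self hνpos.ne']
    set l : ℝ := T ^ κ / 8 with hl
    have hl0 : 0 < l := by positivity
    have hl8 : l ≤ x / 8 := by rw [hl]; gcongr
    obtain ⟨t0, ht0, hlb⟩ := hlow N (Q i0) x l (hQdeg i0) hx0 hl0 (by linarith) hQge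
    set M : ℝ := ((D : ℝ) + 1) * (((N : ℝ) + 1) * 2 ^ N * 2 ^ D) with hM
    have hsub : ∀ z ∈ Metric.closedBall t0 (x / 2), ‖z - (x : ℂ)‖ ≤ 5 / 8 * x := by
      intro z hz
      rw [mem_closedBall_iff_norm] at hz
      calc ‖z - (x : ℂ)‖ = ‖(z - t0) + (t0 - (x : ℂ))‖ := by ring_nf
        _ ≤ ‖z - t0‖ + ‖t0 - (x : ℂ)‖ := norm_add_le _ _
        _ ≤ x / 2 + l := add_le_add hz ht0
        _ ≤ 5 / 8 * x := by linarith
    have hcl := tCL s A (fun i => phi D (Q i) x) t0 (x / 2) M (by positivity) (by positivity)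
      (fun i => (phi_diff D (Q i) hx0).mono (fun z hz => by
        have := hsub z hz
        show ‖z - (x : ℂ)‖ < x
        linarith))
      (fun i z hz => phi_bound (Q i) (hQdeg i) hx0 (hQle i) (hsub z hz))
      (fun k => ((e k).1 : ℝ)) (fun k => c (e k).1) H hH
      (fun k i => hEH _ (e k).2 i)
      (fun k => by
        have h1 := hErel _ (e k).2
        have h2 : ∀ i, phi D (Q i) x (((e k).1 : ℝ) : ℂ) =
            (ν : ℂ)⁻¹ * ∑ j, (Ψ i j).eval ((e k).1 : ℂ) *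
              (Real.log (((e k).1 : ℝ) / x) : ℂ) ^ (j : ℕ) := by
          intro i
          unfold phi
          rw [Finset.mul_sum]
          refine Finset.sum_congr rfl fun j _ => ?_
          have h3 : Complex.log ((((e k).1 : ℝ) : ℂ) / (x : ℂ)) =
              (Real.log (((e k).1 : ℝ) / x) : ℂ) := by
            rw [Complex.ofReal_log (by positivity)]
            push_cast; rfl
          rw [h3]
          simp only [Q, Polynomial.eval_mul, Polynomial.eval_C, Complex.ofReal_natCast]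
          ring
        have h4 : ∑ i, phi D (Q i) x (((e k).1 : ℝ) : ℂ) * (c (e k).1 i : ℂ) =
            (ν : ℂ)⁻¹ * ∑ j, (∑ i, (c (e k).1 i : ℂ) * (Ψ i j).eval ((e k).1 : ℂ)) *
              (Real.log (((e k).1 : ℝ) / x) : ℂ) ^ (j : ℕ) := by
          rw [Finset.sum_congr rfl (fun i _ => by rw [h2 i])]
          simp only [Finset.sum_mul, Finset.mul_sum]
          rw [Finset.sum_comm]
          refine Finset.sum_congr rfl fun j _ => Finset.sum_congr rfl fun i _ => ?_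
          ring
        rw [h4, h1, mul_zero])
      (T ^ κ / 4) (by positivity) (by linarith)
      (fun k => by
        have h1 := hEx _ (e k).2
        have h2 : ‖(((e k).1 : ℝ) : ℂ) - (x : ℂ)‖ ≤ l := by
          rw [← Complex.ofReal_sub, Complex.norm_real]; exact h1
        have h3 : ‖(x : ℂ) - t0‖ ≤ l := by rw [norm_sub_rev]; exact ht0
        calc ‖(((e k).1 : ℝ) : ℂ) - t0‖ =
            ‖((((e k).1 : ℝ) : ℂ) - (x : ℂ)) + ((x : ℂ) - t0)‖ := by ring_nf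
          _ ≤ l + l := (norm_add_le _ _).trans (add_le_add h2 h3)
          _ = T ^ κ / 4 := by rw [hl]; ring)
      i0
    have hdet : (1 : ℝ) ≤ |Matrix.det (fun (k ia : Fin s × Fin (A + 1)) =>
        (c (e k).1 ia.1 : ℝ) * (((e k).1 : ℝ)) ^ (ia.2 : ℕ))| := by
      have h1 : (fun (k ia : Fin s × Fin (A + 1)) =>
          (c (e k).1 ia.1 : ℝ) * (((e k).1 : ℝ)) ^ (ia.2 : ℕ)) =
          (Matrix.of (fun (k ia : Fin s × Fin (A + 1)) =>
            c (e k).1 ia.1 * ((e k).1 : ℤ) ^ (ia.2 : ℕ))).map (Int.castRingHom ℝ) := by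
        ext k ia
        simp
      rw [h1, ← RingHom.mapMatrix_apply, ← RingHom.map_det]
      have h2 : (1 : ℤ) ≤ |Matrix.det (Matrix.of (fun (k ia : Fin s × Fin (A + 1)) =>
            c (e k).1 ia.1 * ((e k).1 : ℤ) ^ (ia.2 : ℕ)))| := Int.one_le_abs he
      simp only [eq_intCast]
      rw [← Int.cast_abs]
      exact_mod_cast h2
    have hst := hstar s N A H T x hs hsm hH hT hx1 hx2 hA
    rw [← hM, ← hl] at hst
    have hfin : (Real.exp (-(C * ((N : ℝ) + 1) ^ 2)) *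
          (l / (2 * x)) ^ ((N + 1) * (D + 1))) ^ (A + 1) ≤
        ‖phi D (Q i0) x t0‖ ^ (A + 1) * |Matrix.det (fun (k ia : Fin s × Fin (A + 1)) =>
        (c (e k).1 ia.1 : ℝ) * (((e k).1 : ℝ)) ^ (ia.2 : ℕ))| := by
      calc _ ≤ ‖phi D (Q i0) x t0‖ ^ (A + 1) := pow_le_pow_left₀ (by positivity) hlb _
        _ = ‖phi D (Q i0) x t0‖ ^ (A + 1) * 1 := (mul_one _).symm
        _ ≤ _ := mul_le_mul_of_nonneg_left hdet (by positivity)
    exact absurd (lt_of_le_of_lt (hfin.trans hcl) hst) (lt_irrefl _)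
  · refine ⟨fun i => ∑ a : Fin (A + 1), Polynomial.C (g (i, a)) * X ^ (a : ℕ), ?_, ?_, ?_⟩
    · intro hcon
      apply hg0
      funext ia
      obtain ⟨i, a⟩ := ia
      have h1 := congrFun hcon i
      have h2 := congrArg (fun P => Polynomial.coeff P (a : ℕ)) h1
      simp only [Polynomial.finsetSum_coeff, Polynomial.coeff_C_mul, Polynomial.coeff_X_pow,
        Pi.zero_apply, Polynomial.coeff_zero] at h2
      rw [Finset.sum_eq_single a] at h2
      · simpa using h2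
      · intro b _ hb
        have : ¬ ((a : ℕ) = (b : ℕ)) := fun h => hb (Fin.ext h.symm)
        simp [this]
      · simp
    · intro i
      refine Polynomial.natDegree_sum_le_of_forall_le _ _ fun a _ => ?_
      refine (Polynomial.natDegree_C_mul_X_pow_le _ _).trans ?_
      have := a.2; omega
    · intro t ht
      have h1 := hg ⟨t, ht⟩
      rw [Fintype.sum_prod_type] at h1
      rw [← h1]
      refine Finset.sum_congr rfl fun i _ => ?_
      rw [Polynomial.eval_finsetSum, Finset.sum_mul]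
      refine Finset.sum_congr rfl fun a _ => ?_
      simp only [Polynomial.eval_mul, Polynomial.eval_C, Polynomial.eval_pow, Polynomial.eval_X]
      ring

end KAA
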